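import Mathlib

set_option autoImplicit false

open Set MeasureTheory Filter Topology BoundedContinuousFunction

namespace Pool.Agent.N260.TF

/-- functions on `[0,1]` between two barriers, Lipschitz with constant `L` -/
def Box (l u : ℝ → ℝ) (L : ℝ) : Set (unitInterval →ᵇ ℝ) :=
  {a | (∀ x : unitInterval, l x ≤ a x) ∧ (∀ x : unitInterval, a x ≤ u x) ∧
    ∀ x y : unitInterval, |a x - a y| ≤ L * |(x : ℝ) - y|}

theorem box_convex (l u : ℝ → ℝ) (L : ℝ) : Convex ℝ (Box l u L) := by
  rintro a ⟨ha1, ha2, ha3⟩ b ⟨hb1, hb2, hb3⟩ p q hp hq hpq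
  refine ⟨fun x => ?_, fun x => ?_, fun x y => ?_⟩
  · simp only [BoundedContinuousFunction.coe_add, BoundedContinuousFunction.coe_smul,
      Pi.add_apply, smul_eq_mul]
    calc l x = p * l x + q * l x := by rw [← add_mul, hpq, one_mul]
      _ ≤ _ := add_le_add (mul_le_mul_of_nonneg_left (ha1 x) hp)
        (mul_le_mul_of_nonneg_left (hb1 x) hq)
  · simp only [BoundedContinuousFunction.coe_add, BoundedContinuousFunction.coe_smul,
      Pi.add_apply, smul_eq_mul]
    have h1 : p * a x + q * b x ≤ p * u x + q * u x :=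
      add_le_add (mul_le_mul_of_nonneg_left (ha2 x) hp) (mul_le_mul_of_nonneg_left (hb2 x) hq)
    rwa [← add_mul, hpq, one_mul] at h1
  · simp only [BoundedContinuousFunction.coe_add, BoundedContinuousFunction.coe_smul,
      Pi.add_apply, smul_eq_mul]
    have e : p * a x + q * b x - (p * a y + q * b y) = p * (a x - a y) + q * (b x - b y) := by
      ring
    rw [e]
    calc |p * (a x - a y) + q * (b x - b y)| ≤ |p * (a x - a y)| + |q * (b x - b y)| :=
          abs_add_le _ _
      _ = p * |a x - a y| + q * |b x - b y| := by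
          rw [abs_mul, abs_mul, abs_of_nonneg hp, abs_of_nonneg hq]
      _ ≤ p * (L * |(x : ℝ) - y|) + q * (L * |(x : ℝ) - y|) :=
          add_le_add (mul_le_mul_of_nonneg_left (ha3 x y) hp)
            (mul_le_mul_of_nonneg_left (hb3 x y) hq)
      _ = L * |(x : ℝ) - y| := by rw [← add_mul, hpq, one_mul]

theorem box_closed (l u : ℝ → ℝ) (L : ℝ) : IsClosed (Box l u L) := by
  have hc : ∀ x : unitInterval, Continuous fun a : unitInterval →ᵇ ℝ => a x :=
    fun x => (BoundedContinuousFunction.continuous_coe).comp continuous_id |> (continuous_apply x).comp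
  have e : Box l u L = (⋂ x : unitInterval, {a | l x ≤ a x}) ∩ ((⋂ x : unitInterval, {a | a x ≤ u x})
      ∩ ⋂ x : unitInterval, ⋂ y : unitInterval, {a | |a x - a y| ≤ L * |(x : ℝ) - y|}) := by
    ext a
    simp only [Box, mem_ofPred_eq, mem_inter_iff, mem_iInter]
  rw [e]
  refine (isClosed_iInter fun x => isClosed_le continuous_const (hc x)).inter
    ((isClosed_iInter fun x => isClosed_le (hc x) continuous_const).inter
      (isClosed_iInter fun x => isClosed_iInter fun y =>
        isClosed_le ((hc x).sub (hc y)).abs continuous_const))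

theorem box_compact (l u : ℝ → ℝ) (L : ℝ) (M : ℝ) (hl : ∀ x ∈ Icc (0:ℝ) 1, -M ≤ l x)
    (hu : ∀ x ∈ Icc (0:ℝ) 1, u x ≤ M) (hL : 0 ≤ L) : IsCompact (Box l u L) := by
  refine BoundedContinuousFunction.arzela_ascoli₂ (Icc (-M) M) isCompact_Icc _
    (box_closed l u L) ?_ ?_
  · rintro f x ⟨h1, h2, -⟩
    exact ⟨(hl x x.2).trans (h1 x), (h2 x).trans (hu x x.2)⟩
  · apply UniformEquicontinuous.equicontinuous
    apply LipschitzWith.uniformEquicontinuous _ (Real.toNNReal L)
    rintro ⟨f, hf⟩
    refine LipschitzWith.of_dist_le_mul fun x y => ?_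
    rw [Real.dist_eq, Subtype.dist_eq, Real.dist_eq, Real.coe_toNNReal _ hL]
    exact hf.2.2 x y

end Pool.Agent.N260.TF
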