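import Pool.Agent.N260.TF.Kernel

/-!
Integral estimates for the fixed point map.
-/

set_option autoImplicit false

open Set MeasureTheory intervalIntegral Filter Topology

namespace Pool.Agent.N260.TF

/-- admissible densities on `[0,1]` -/
structure Adm (V : ℝ → ℝ) : Prop where
  meas : Measurable V
  nonneg : ∀ t ∈ Icc (0:ℝ) 1, 0 ≤ V t
  le : ∀ t ∈ Icc (0:ℝ) 1, (1 - t) * V t ≤ 4 * t

variable {V : ℝ → ℝ}

theorem Adm.bound (hV : Adm V) {h : ℝ → ℝ} {C : ℝ}
    (hb : ∀ t ∈ Icc (0:ℝ) 1, |h t| ≤ C * (1 - t)) (hC : 0 ≤ C) :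
    ∀ t ∈ Icc (0:ℝ) 1, |h t * V t| ≤ 4 * C := by
  intro t ht
  have h0 := hV.nonneg t ht
  rw [abs_mul, abs_of_nonneg h0]
  calc |h t| * V t ≤ C * (1 - t) * V t := mul_le_mul_of_nonneg_right (hb t ht) h0
    _ = C * ((1 - t) * V t) := by ring
    _ ≤ C * (4 * t) := mul_le_mul_of_nonneg_left (hV.le t ht) hC
    _ ≤ C * (4 * 1) := by
        apply mul_le_mul_of_nonneg_left _ hC
        linarith [ht.2]
    _ = 4 * C := by ring

theorem Adm.integrable (hV : Adm V) {h : ℝ → ℝ} (hm : Measurable h) (C : ℝ) (hC : 0 ≤ C)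
    (hb : ∀ t ∈ Icc (0:ℝ) 1, |h t| ≤ C * (1 - t)) :
    IntervalIntegrable (fun t => h t * V t) volume 0 1 := by
  rw [intervalIntegrable_iff_integrableOn_Ioc_of_le zero_le_one]
  apply Measure.integrableOn_of_bounded (M := 4 * C)
  · simp
  · exact (hm.mul hV.meas).aestronglyMeasurable
  · refine (ae_restrict_iff' measurableSet_Ioc).2 (Eventually.of_forall fun t ht => ?_)
    rw [Real.norm_eq_abs]
    exact hV.bound hb hC t ⟨ht.1.le, ht.2⟩

/-- normalising functional -/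
noncomputable def II (V : ℝ → ℝ) : ℝ := ∫ t in (0:ℝ)..1, t * (1 - t ^ 2) * V t
noncomputable def m1 (V : ℝ → ℝ) : ℝ := ∫ t in (0:ℝ)..1, t * (1 - t) * V t
noncomputable def m2 (V : ℝ → ℝ) : ℝ := ∫ t in (0:ℝ)..1, t * (1 - t) ^ 2 * V t
noncomputable def GG (V : ℝ → ℝ) (x : ℝ) : ℝ := ∫ t in (0:ℝ)..1, kG x t * V t
noncomputable def FF (V : ℝ → ℝ) (x : ℝ) : ℝ := ∫ t in (0:ℝ)..1, kF x t * V t

theorem Adm.int_II (hV : Adm V) :
    IntervalIntegrable (fun t => t * (1 - t ^ 2) * V t) volume 0 1 := by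
  apply hV.integrable (by fun_prop) 2 (by norm_num)
  intro t ht
  have h1 : 0 ≤ 1 - t := by linarith [ht.2]
  have h2 : 0 ≤ t := ht.1
  have h3 : 1 - t ^ 2 = (1 - t) * (1 + t) := by ring
  rw [h3, abs_of_nonneg (by positivity)]
  nlinarith [mul_nonneg h1 h2, mul_nonneg (mul_nonneg h1 h1) h2, mul_nonneg h1 h1,
    mul_nonneg (mul_nonneg h1 h1) h1]

theorem Adm.int_m1 (hV : Adm V) :
    IntervalIntegrable (fun t => t * (1 - t) * V t) volume 0 1 := by
  apply hV.integrable (by fun_prop) 1 (by norm_num)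
  intro t ht
  have h1 : 0 ≤ 1 - t := by linarith [ht.2]
  have h2 : 0 ≤ t := ht.1
  rw [abs_of_nonneg (by positivity)]
  nlinarith [mul_nonneg h1 h2, mul_nonneg h1 h1]

theorem Adm.int_m2 (hV : Adm V) :
    IntervalIntegrable (fun t => t * (1 - t) ^ 2 * V t) volume 0 1 := by
  apply hV.integrable (by fun_prop) 1 (by norm_num)
  intro t ht
  have h1 : 0 ≤ 1 - t := by linarith [ht.2]
  have h2 : 0 ≤ t := ht.1
  rw [abs_of_nonneg (by positivity)]
  nlinarith [mul_nonneg h1 h2, mul_nonneg (mul_nonneg h1 h1) h2, mul_nonneg h1 h1,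
    mul_nonneg (mul_nonneg h1 h1) h1]

theorem Adm.int_kG (hV : Adm V) {x : ℝ} (hx0 : 0 ≤ x) (hx1 : x ≤ 1) :
    IntervalIntegrable (fun t => kG x t * V t) volume 0 1 := by
  apply hV.integrable (continuous_kG x).measurable 1 (by norm_num)
  intro t ht
  rw [abs_of_nonneg (kG_nonneg hx0 hx1 ht.1 ht.2)]
  refine (kG_le hx0 hx1 ht.1 ht.2).trans ?_
  have h1 : 0 ≤ 1 - t := by linarith [ht.2]
  have h2 : 0 ≤ t := ht.1
  have h3 : (1 - x) * t ≤ 1 := by nlinarith [ht.2]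
  nlinarith [mul_le_mul_of_nonneg_right h3 h1]

theorem Adm.int_kF (hV : Adm V) {x : ℝ} (hx0 : 0 ≤ x) (hx1 : x ≤ 1) :
    IntervalIntegrable (fun t => kF x t * V t) volume 0 1 := by
  apply hV.integrable (continuous_kF x).measurable 1 (by norm_num)
  intro t ht
  rw [abs_of_nonneg (kF_nonneg hx0 hx1 ht.1 ht.2)]
  refine (kF_le hx0 hx1 ht.1 ht.2).trans ?_
  have h1 : 0 ≤ 1 - t := by linarith [ht.2]
  have h2 : 0 ≤ t := ht.1
  have h3 : x * (1 - x) * t ≤ 1 := by
    have : x * (1 - x) ≤ 1 := by nlinarith [sq_nonneg (2 * x - 1)]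
    have h4 : 0 ≤ x * (1 - x) := mul_nonneg hx0 (by linarith)
    nlinarith [ht.2]
  nlinarith [mul_le_mul_of_nonneg_right h3 h1]

theorem m1_nonneg (hV : Adm V) : 0 ≤ m1 V := by
  unfold m1
  apply integral_nonneg zero_le_one
  intro t ht
  have h1 : 0 ≤ 1 - t := by linarith [ht.2]
  exact mul_nonneg (mul_nonneg ht.1 h1) (hV.nonneg t ht)

theorem m1_le_II (hV : Adm V) : m1 V ≤ II V := by
  unfold m1 II
  apply integral_mono_on zero_le_one hV.int_m1 hV.int_II
  intro t ht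
  apply mul_le_mul_of_nonneg_right _ (hV.nonneg t ht)
  have h1 : 0 ≤ 1 - t := by linarith [ht.2]
  have h2 := ht.1
  nlinarith [mul_nonneg (mul_nonneg h2 h2) h1]

theorem II_le (hV : Adm V) : II V ≤ 2 * m1 V := by
  unfold m1 II
  rw [← intervalIntegral.integral_const_mul]
  apply integral_mono_on zero_le_one hV.int_II (hV.int_m1.const_mul 2)
  intro t ht
  have h1 : 0 ≤ 1 - t := by linarith [ht.2]
  have h2 := ht.1
  have h3 := hV.nonneg t ht
  have : t * (1 - t ^ 2) ≤ 2 * (t * (1 - t)) := by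
    nlinarith [mul_nonneg (mul_nonneg h2 h1) h1]
  calc t * (1 - t ^ 2) * V t ≤ 2 * (t * (1 - t)) * V t := mul_le_mul_of_nonneg_right this h3
    _ = 2 * (t * (1 - t) * V t) := by ring

theorem m1_le (hV : Adm V) : m1 V ≤ 4 := by
  unfold m1
  have : (4:ℝ) = ∫ t in (0:ℝ)..1, (4:ℝ) := by simp
  rw [this]
  apply integral_mono_on zero_le_one hV.int_m1 (by simp)
  intro t ht
  have h1 := hV.le t ht
  have h2 := ht.1
  calc t * (1 - t) * V t = t * ((1 - t) * V t) := by ring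
    _ ≤ t * (4 * t) := mul_le_mul_of_nonneg_left h1 h2
    _ ≤ 4 := by nlinarith [ht.2]

theorem GG_le (hV : Adm V) {x : ℝ} (hx0 : 0 ≤ x) (hx1 : x ≤ 1) : GG V x ≤ (1 - x) * m1 V := by
  unfold GG m1
  rw [← intervalIntegral.integral_const_mul]
  apply integral_mono_on zero_le_one (hV.int_kG hx0 hx1) (hV.int_m1.const_mul _)
  intro t ht
  calc kG x t * V t ≤ (1 - x) * (t * (1 - t)) * V t :=
        mul_le_mul_of_nonneg_right (kG_le hx0 hx1 ht.1 ht.2) (hV.nonneg t ht)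
    _ = _ := by ring

theorem GG_ge (hV : Adm V) {x : ℝ} (hx0 : 0 ≤ x) (hx1 : x ≤ 1) :
    (1 - x) ^ 2 / 2 * m1 V ≤ GG V x := by
  unfold GG m1
  rw [← intervalIntegral.integral_const_mul]
  apply integral_mono_on zero_le_one (hV.int_m1.const_mul _) (hV.int_kG hx0 hx1)
  intro t ht
  calc (1 - x) ^ 2 / 2 * (t * (1 - t) * V t) = (1 - x) ^ 2 * (t * (1 - t)) / 2 * V t := by ring
    _ ≤ kG x t * V t :=
        mul_le_mul_of_nonneg_right (kG_ge hx0 hx1 ht.1 ht.2) (hV.nonneg t ht)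

theorem FF_le (hV : Adm V) {x : ℝ} (hx0 : 0 ≤ x) (hx1 : x ≤ 1) :
    FF V x ≤ x * (1 - x) * m1 V := by
  unfold FF m1
  rw [← intervalIntegral.integral_const_mul]
  apply integral_mono_on zero_le_one (hV.int_kF hx0 hx1) (hV.int_m1.const_mul _)
  intro t ht
  calc kF x t * V t ≤ x * (1 - x) * (t * (1 - t)) * V t :=
        mul_le_mul_of_nonneg_right (kF_le hx0 hx1 ht.1 ht.2) (hV.nonneg t ht)
    _ = _ := by ring

theorem FF_ge (hV : Adm V) {x : ℝ} (hx0 : 0 ≤ x) (hx1 : x ≤ 1) :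
    x * (1 - x) / 2 * m2 V ≤ FF V x := by
  unfold FF m2
  rw [← intervalIntegral.integral_const_mul]
  apply integral_mono_on zero_le_one (hV.int_m2.const_mul _) (hV.int_kF hx0 hx1)
  intro t ht
  calc x * (1 - x) / 2 * (t * (1 - t) ^ 2 * V t) = x * (1 - x) * (t * (1 - t) ^ 2) / 2 * V t := by
        ring
    _ ≤ kF x t * V t :=
        mul_le_mul_of_nonneg_right (kF_ge hx0 hx1 ht.1 ht.2) (hV.nonneg t ht)

theorem GG_lip (hV : Adm V) {x y : ℝ} (hx0 : 0 ≤ x) (hx1 : x ≤ 1) (hy0 : 0 ≤ y) (hy1 : y ≤ 1) :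
    |GG V x - GG V y| ≤ m1 V * |x - y| := by
  unfold GG m1
  rw [← intervalIntegral.integral_sub (hV.int_kG hx0 hx1) (hV.int_kG hy0 hy1),
    ← intervalIntegral.integral_mul_const]
  rw [← Real.norm_eq_abs]
  apply intervalIntegral.norm_integral_le_of_norm_le zero_le_one
  · refine Eventually.of_forall fun t ht => ?_
    have ht' : t ∈ Icc (0:ℝ) 1 := ⟨ht.1.le, ht.2⟩
    have h0 := hV.nonneg t ht'
    rw [← sub_mul, Real.norm_eq_abs, abs_mul, abs_of_nonneg h0]
    calc |kG x t - kG y t| * V t ≤ (t * (1 - t) * |x - y|) * V t :=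
          mul_le_mul_of_nonneg_right (kG_lip hx0 hx1 hy0 hy1 ht'.1 ht'.2) h0
      _ = _ := by ring
  · exact hV.int_m1.mul_const _

theorem FF_lip (hV : Adm V) {x y : ℝ} (hx0 : 0 ≤ x) (hx1 : x ≤ 1) (hy0 : 0 ≤ y) (hy1 : y ≤ 1) :
    |FF V x - FF V y| ≤ m1 V * |x - y| := by
  unfold FF m1
  rw [← intervalIntegral.integral_sub (hV.int_kF hx0 hx1) (hV.int_kF hy0 hy1),
    ← intervalIntegral.integral_mul_const]
  rw [← Real.norm_eq_abs]
  apply intervalIntegral.norm_integral_le_of_norm_le zero_le_one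
  · refine Eventually.of_forall fun t ht => ?_
    have ht' : t ∈ Icc (0:ℝ) 1 := ⟨ht.1.le, ht.2⟩
    have h0 := hV.nonneg t ht'
    rw [← sub_mul, Real.norm_eq_abs, abs_mul, abs_of_nonneg h0]
    calc |kF x t - kF y t| * V t ≤ (t * (1 - t) * |x - y|) * V t :=
          mul_le_mul_of_nonneg_right (kF_lip hx0 hx1 hy0 hy1 ht'.1 ht'.2) h0
      _ = _ := by ring
  · exact hV.int_m1.mul_const _

theorem FF_nonneg (hV : Adm V) {x : ℝ} (hx0 : 0 ≤ x) (hx1 : x ≤ 1) : 0 ≤ FF V x := by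
  unfold FF
  apply integral_nonneg zero_le_one
  intro t ht
  exact mul_nonneg (kF_nonneg hx0 hx1 ht.1 ht.2) (hV.nonneg t ht)

/-- comparison of two densities -/
theorem GG_dist {U : ℝ → ℝ} (hV : Adm V) (hU : Adm U) (a b : ℝ) {x : ℝ} (hx0 : 0 ≤ x)
    (hx1 : x ≤ 1) :
    |a * GG V x - b * GG U x| ≤ ∫ t in (0:ℝ)..1, t * (1 - t) * |a * V t - b * U t| := by
  unfold GG
  rw [← intervalIntegral.integral_const_mul, ← intervalIntegral.integral_const_mul,
    ← intervalIntegral.integral_sub ((hV.int_kG hx0 hx1).const_mul a)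
      ((hU.int_kG hx0 hx1).const_mul b), ← Real.norm_eq_abs]
  apply intervalIntegral.norm_integral_le_of_norm_le zero_le_one
  · refine Eventually.of_forall fun t ht => ?_
    have ht' : t ∈ Icc (0:ℝ) 1 := ⟨ht.1.le, ht.2⟩
    have e : a * (kG x t * V t) - b * (kG x t * U t) = kG x t * (a * V t - b * U t) := by ring
    rw [e, Real.norm_eq_abs, abs_mul, abs_of_nonneg (kG_nonneg hx0 hx1 ht'.1 ht'.2)]
    apply mul_le_mul_of_nonneg_right _ (abs_nonneg _)
    refine (kG_le hx0 hx1 ht'.1 ht'.2).trans ?_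
    have h1 : 0 ≤ 1 - t := by linarith [ht'.2]
    have h2 : 0 ≤ t * (1 - t) := mul_nonneg ht'.1 h1
    nlinarith
  · have h1 : IntervalIntegrable (fun t => t * (1 - t) * (a * V t - b * U t)) volume 0 1 := by
      have := (hV.int_m1.const_mul a).sub (hU.int_m1.const_mul b)
      refine this.congr ?_
      intro t _
      simp only [Pi.sub_apply]
      ring
    refine (h1.abs).congr ?_
    intro t ht
    rw [uIoc_of_le zero_le_one] at ht
    have h2 : 0 ≤ t * (1 - t) := mul_nonneg ht.1.le (by linarith [ht.2])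
    simp only [abs_mul]
    rw [← abs_mul t, abs_of_nonneg h2]

theorem FF_dist {U : ℝ → ℝ} (hV : Adm V) (hU : Adm U) (a b : ℝ) {x : ℝ} (hx0 : 0 ≤ x)
    (hx1 : x ≤ 1) :
    |a * FF V x - b * FF U x| ≤ ∫ t in (0:ℝ)..1, t * (1 - t) * |a * V t - b * U t| := by
  unfold FF
  rw [← intervalIntegral.integral_const_mul, ← intervalIntegral.integral_const_mul,
    ← intervalIntegral.integral_sub ((hV.int_kF hx0 hx1).const_mul a)
      ((hU.int_kF hx0 hx1).const_mul b), ← Real.norm_eq_abs]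
  apply intervalIntegral.norm_integral_le_of_norm_le zero_le_one
  · refine Eventually.of_forall fun t ht => ?_
    have ht' : t ∈ Icc (0:ℝ) 1 := ⟨ht.1.le, ht.2⟩
    have e : a * (kF x t * V t) - b * (kF x t * U t) = kF x t * (a * V t - b * U t) := by ring
    rw [e, Real.norm_eq_abs, abs_mul, abs_of_nonneg (kF_nonneg hx0 hx1 ht'.1 ht'.2)]
    apply mul_le_mul_of_nonneg_right _ (abs_nonneg _)
    refine (kF_le hx0 hx1 ht'.1 ht'.2).trans ?_
    have h1 : 0 ≤ 1 - t := by linarith [ht'.2]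
    have h2 : 0 ≤ t * (1 - t) := mul_nonneg ht'.1 h1
    have h3 : x * (1 - x) ≤ 1 := by nlinarith [sq_nonneg (2 * x - 1)]
    nlinarith
  · have h1 : IntervalIntegrable (fun t => t * (1 - t) * (a * V t - b * U t)) volume 0 1 := by
      have := (hV.int_m1.const_mul a).sub (hU.int_m1.const_mul b)
      refine this.congr ?_
      intro t _
      simp only [Pi.sub_apply]
      ring
    refine (h1.abs).congr ?_
    intro t ht
    rw [uIoc_of_le zero_le_one] at ht
    have h2 : 0 ≤ t * (1 - t) := mul_nonneg ht.1.le (by linarith [ht.2])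
    simp only [abs_mul]
    rw [← abs_mul t, abs_of_nonneg h2]

end Pool.Agent.N260.TF
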