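import Pool.Agent.N260.TF.Ode

set_option autoImplicit false

open Set MeasureTheory intervalIntegral Filter Topology BoundedContinuousFunction

namespace Pool.Agent.N260.TF

variable {p : E}

theorem one_sub_tendsto : Tendsto (fun x : ℝ => 1 - x) (𝓝[<] 1) (𝓝 0) := by
  have : Tendsto (fun x : ℝ => 1 - x) (𝓝 1) (𝓝 (1 - 1)) := by
    apply Continuous.tendsto
    fun_prop
  rw [sub_self] at this
  exact this.mono_left nhdsWithin_le_nhds

theorem near_one : ∀ᶠ x : ℝ in 𝓝[<] 1, 0 ≤ x ∧ x < 1 := by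
  filter_upwards [Ioo_mem_nhdsLT (show (0:ℝ) < 1 by norm_num)] with x hx
  exact ⟨hx.1.le, hx.2⟩

/-- logarithmic bound of the first moment -/
theorem mom1_bound (hp : p ∈ KK) {x : ℝ} (hx0 : 0 ≤ x) (hx1 : x < 1) :
    0 ≤ mom p 1 x ∧ mom p 1 x ≤ 4 * mu p * (- Real.log (1 - x)) := by
  have hV := dens_adm p
  have hmu := mu_pos hp
  have hx' : x ∈ Ioo (-1:ℝ) 1 := ⟨by linarith, hx1⟩
  have hw : ∀ t, 0 ≤ t → t < 1 → 0 ≤ WW p t ∧ (1 - t) * WW p t ≤ mu p * (4 * t) := by
    intro t h0 h1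
    rw [WW_eq hp h0 h1]
    have a1 := hV.nonneg t ⟨h0, h1.le⟩
    have a2 := hV.le t ⟨h0, h1.le⟩
    refine ⟨by positivity, ?_⟩
    calc (1 - t) * (mu p * dens p t) = mu p * ((1 - t) * dens p t) := by ring
      _ ≤ _ := mul_le_mul_of_nonneg_left a2 hmu.le
  constructor
  · unfold mom
    apply intervalIntegral.integral_nonneg hx0
    intro t ht
    exact mul_nonneg (pow_nonneg ht.1 1) (hw t ht.1 (lt_of_le_of_lt ht.2 hx1)).1
  · have h1 : ∀ t ∈ uIcc (0:ℝ) x, HasDerivAt (fun t => - Real.log (1 - t)) ((1 - t)⁻¹) t := by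
      intro t ht
      rw [uIcc_of_le hx0] at ht
      have h2 : 1 - t ≠ 0 := by
        have : 0 < 1 - t := by linarith [ht.2]
        exact this.ne'
      have := (((hasDerivAt_const t (1:ℝ)).sub (hasDerivAt_id t)).log h2).neg
      refine this.congr_deriv ?_
      simp only [Pi.sub_apply, id, zero_sub]
      rw [neg_div, neg_neg, one_div]
    have hcont : ContinuousOn (fun t : ℝ => (1 - t)⁻¹) (uIcc 0 x) := by
      apply ContinuousOn.inv₀ (by fun_prop)
      intro t ht
      rw [uIcc_of_le hx0] at ht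
      have : 0 < 1 - t := by linarith [ht.2]
      exact this.ne'
    have h2 : ∫ t in (0:ℝ)..x, (1 - t)⁻¹ = - Real.log (1 - x) := by
      rw [integral_eq_sub_of_hasDerivAt h1 hcont.intervalIntegrable]
      simp
    rw [← h2, ← intervalIntegral.integral_const_mul]
    unfold mom
    apply integral_mono_on hx0 (int_mom hp 1 hx') ((hcont.intervalIntegrable).const_mul _)
    intro t ht
    have ht1 : t < 1 := lt_of_le_of_lt ht.2 hx1
    have h3 : 0 < 1 - t := by linarith
    obtain ⟨a, b⟩ := hw t ht.1 ht1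
    have h4 : WW p t ≤ mu p * (4 * t) * (1 - t)⁻¹ := by
      rw [← div_eq_mul_inv, le_div_iff₀ h3]
      linarith
    have h5 : mu p * (4 * t) ≤ 4 * mu p := by nlinarith
    have h6 : WW p t ≤ 4 * mu p * (1 - t)⁻¹ :=
      h4.trans (mul_le_mul_of_nonneg_right h5 (by positivity))
    calc t ^ 1 * WW p t ≤ 1 * WW p t := by
          apply mul_le_mul_of_nonneg_right _ a
          rw [pow_one]; exact ht1.le
      _ ≤ _ := by rw [one_mul]; exact h6

theorem lim_mom1 (hp : p ∈ KK) : Tendsto (fun x => (1 - x) * mom p 1 x) (𝓝[<] 1) (𝓝 0) := by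
  have h1 : Tendsto (fun x : ℝ => (1 - x) * Real.log (1 - x)) (𝓝[<] 1) (𝓝 0) := by
    have := (Real.continuous_mul_log.tendsto 0).comp one_sub_tendsto
    simp only [zero_mul] at this
    exact this
  have h2 : Tendsto (fun x : ℝ => 4 * mu p * (-((1 - x) * Real.log (1 - x)))) (𝓝[<] 1) (𝓝 0) := by
    have := (h1.neg).const_mul (4 * mu p)
    simpa using this
  refine tendsto_of_tendsto_of_tendsto_of_le_of_le' tendsto_const_nhds h2 ?_ ?_
  · filter_upwards [near_one] with x hx
    exact mul_nonneg (by linarith [hx.2]) (mom1_bound hp hx.1 hx.2).1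
  · filter_upwards [near_one] with x hx
    have := mul_le_mul_of_nonneg_left (mom1_bound hp hx.1 hx.2).2
      (by linarith [hx.2] : 0 ≤ 1 - x)
    linarith

/-- the tail -/
theorem tail_eq (hp : p ∈ KK) {x : ℝ} (hx0 : 0 ≤ x) (hx1 : x < 1) :
    C0 p - mom p 0 x + mom p 1 x = ∫ t in x..1, (1 - t) * (mu p * dens p t) := by
  have hV := dens_adm p
  have i0 : IntervalIntegrable (fun t => (1 - t) * (mu p * dens p t)) volume 0 1 := by
    refine (hV.int_one_sub.const_mul (mu p)).congr ?_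
    intro t _
    ring
  have hx' : x ∈ Ioo (-1:ℝ) 1 := ⟨by linarith, hx1⟩
  have i1 : IntervalIntegrable (fun t => (1 - t) * (mu p * dens p t)) volume 0 x :=
    i0.mono_set (by
      rw [uIcc_of_le hx0, uIcc_of_le zero_le_one]
      exact Icc_subset_Icc le_rfl hx1.le)
  have i2 : IntervalIntegrable (fun t => (1 - t) * (mu p * dens p t)) volume x 1 :=
    i0.mono_set (by
      rw [uIcc_of_le hx1.le, uIcc_of_le zero_le_one]
      exact Icc_subset_Icc hx0 le_rfl)
  have h : C0 p = (∫ t in (0:ℝ)..x, (1 - t) * (mu p * dens p t))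
      + ∫ t in x..1, (1 - t) * (mu p * dens p t) := by
    unfold C0
    rw [intervalIntegral.integral_add_adjacent_intervals i1 i2]
  have h2 : (∫ t in (0:ℝ)..x, (1 - t) * (mu p * dens p t)) = mom p 0 x - mom p 1 x := by
    unfold mom
    rw [← intervalIntegral.integral_sub (int_mom hp 0 hx') (int_mom hp 1 hx')]
    apply intervalIntegral.integral_congr
    intro t ht
    rw [uIcc_of_le hx0] at ht
    simp only
    rw [← WW_eq hp ht.1 (lt_of_le_of_lt ht.2 hx1)]
    ring
  linarith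

theorem tail_bound (hp : p ∈ KK) {x : ℝ} (hx0 : 0 ≤ x) (hx1 : x < 1) :
    |C0 p - mom p 0 x + mom p 1 x| ≤ 4 * mu p * (1 - x) := by
  rw [tail_eq hp hx0 hx1]
  have hV := dens_adm p
  have hmu := mu_pos hp
  have h := intervalIntegral.norm_integral_le_of_norm_le_const (a := x) (b := 1)
    (f := fun t => (1 - t) * (mu p * dens p t)) (C := 4 * mu p) (by
      intro t ht
      rw [uIoc_of_le hx1.le] at ht
      have ht' : t ∈ Icc (0:ℝ) 1 := ⟨by linarith [ht.1], ht.2⟩
      have a1 := hV.nonneg t ht'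
      have a2 := hV.le t ht'
      have a3 : 0 ≤ 1 - t := by linarith [ht.2]
      rw [Real.norm_eq_abs, abs_of_nonneg (by positivity)]
      calc (1 - t) * (mu p * dens p t) = mu p * ((1 - t) * dens p t) := by ring
        _ ≤ mu p * (4 * t) := mul_le_mul_of_nonneg_left a2 hmu.le
        _ ≤ 4 * mu p := by nlinarith [ht.2])
  rw [Real.norm_eq_abs, abs_of_nonneg (by linarith : 0 ≤ 1 - x)] at h
  exact h

theorem G1_tendsto (hp : p ∈ KK) : Tendsto (G1 p) (𝓝[<] 1) (𝓝 0) := by
  have h1 : Tendsto (fun x : ℝ => 4 * mu p * (1 - x)) (𝓝[<] 1) (𝓝 0) := by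
    simpa using one_sub_tendsto.const_mul (4 * mu p)
  have h2 : Tendsto (fun x => C0 p - mom p 0 x + mom p 1 x) (𝓝[<] 1) (𝓝 0) := by
    apply squeeze_zero_norm' _ h1
    filter_upwards [near_one] with x hx
    rw [Real.norm_eq_abs]
    exact tail_bound hp hx.1 hx.2
  have h3 : Tendsto (fun x : ℝ => x) (𝓝[<] 1) (𝓝 1) := nhdsWithin_le_nhds
  have h4 := ((h3.mul h2).neg).sub (lim_mom1 hp)
  simp only [mul_zero, neg_zero, sub_zero] at h4
  refine h4.congr fun x => ?_
  unfold G1
  ring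

theorem G0_tendsto (hfix : map p = p) (hp : p ∈ KK) : Tendsto (G0 p) (𝓝[<] 1) (𝓝 0) := by
  have h1 : Tendsto (fun x : ℝ => 4 * (1 - x)) (𝓝[<] 1) (𝓝 0) := by
    simpa using one_sub_tendsto.const_mul 4
  refine tendsto_of_tendsto_of_tendsto_of_le_of_le' tendsto_const_nhds h1 ?_ ?_
  · filter_upwards [near_one] with x hx
    exact (sq_nonneg _).trans (G0_bounds hfix hp hx.1 hx.2).1
  · filter_upwards [near_one] with x hx
    exact (G0_bounds hfix hp hx.1 hx.2).2

theorem F0_tendsto (hfix : map p = p) (hp : p ∈ KK) : Tendsto (F0 p) (𝓝[<] 1) (𝓝 0) := by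
  have h1 : Tendsto (fun x : ℝ => 4 * (x * (1 - x))) (𝓝[<] 1) (𝓝 0) := by
    have h3 : Tendsto (fun x : ℝ => x) (𝓝[<] 1) (𝓝 1) := nhdsWithin_le_nhds
    simpa using (h3.mul one_sub_tendsto).const_mul 4
  refine tendsto_of_tendsto_of_tendsto_of_le_of_le' tendsto_const_nhds h1 ?_ ?_
  · filter_upwards [near_one] with x hx
    have h2 := (F0_bounds hfix hp hx.1 hx.2).1
    have h3 : 0 ≤ c0 * (x * (1 - x)) := by
      have := c0_pos
      have h4 : 0 ≤ 1 - x := by linarith [hx.2]
      have h5 := hx.1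
      positivity
    linarith
  · filter_upwards [near_one] with x hx
    exact (F0_bounds hfix hp hx.1 hx.2).2

/-- A classical chain of derivatives for a symmetric profile. -/
theorem exists_chain : ∃ (x0 : ℝ) (g g1 g2 g3 g4 : ℝ → ℝ), 0 < x0 ∧
    (∀ x, g (-x) = g x) ∧
    (∀ x ∈ Ioo (-x0) x0, 0 < g x ∧ HasDerivAt g (g1 x) x ∧ HasDerivAt g1 (g2 x) x ∧
      HasDerivAt g2 (g3 x) x ∧ HasDerivAt g3 (g4 x) x ∧
      HasDerivAt (fun y => g y * g3 y) (g x - x / 2 * g1 x - 1) x) ∧
    ContinuousOn g4 (Ioo (-x0) x0) ∧ g1 0 = 0 ∧ g3 0 = 0 ∧ (∀ x ∈ Ioo 0 x0, 0 < g3 x) ∧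
    Tendsto g (𝓝[<] x0) (𝓝 0) ∧ Tendsto g1 (𝓝[<] x0) (𝓝 0) ∧
    Tendsto (fun y => g y * g3 y) (𝓝[<] x0) (𝓝 0) := by
  obtain ⟨p, hp, hfix⟩ := exists_fixed
  have hmu := mu_pos hp
  obtain ⟨x0, hx0, hx4⟩ : ∃ x0 : ℝ, 0 < x0 ∧ x0 ^ 4 = 2 * mu p := by
    refine ⟨(2 * mu p) ^ ((1:ℝ) / 4), Real.rpow_pos_of_pos (by positivity) _, ?_⟩
    rw [← Real.rpow_natCast, ← Real.rpow_mul (by positivity)]
    norm_num
  have hne : x0 ≠ 0 := hx0.ne'
  have hmem : ∀ x ∈ Ioo (-x0) x0, x / x0 ∈ Ioo (-1:ℝ) 1 := by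
    intro x hx
    constructor
    · rw [lt_div_iff₀ hx0]; linarith [hx.1]
    · rw [div_lt_one hx0]; exact hx.2
  have hdiv : ∀ x : ℝ, HasDerivAt (fun y : ℝ => y / x0) (1 / x0) x := fun x =>
    (hasDerivAt_id x).div_const x0
  set W1 : ℝ → ℝ := fun x =>
    (mu p * F1 p x * G0 p x - mu p * F0 p x * G1 p x) / (G0 p x) ^ 2 with hW1
  have hlim : Tendsto (fun x : ℝ => x / x0) (𝓝[<] x0) (𝓝[<] 1) := by
    apply tendsto_nhdsWithin_of_tendsto_nhds_of_eventually_within
    · have : Tendsto (fun x : ℝ => x / x0) (𝓝 x0) (𝓝 (x0 / x0)) :=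
        (hdiv x0).continuousAt.tendsto
      rw [div_self hne] at this
      exact this.mono_left nhdsWithin_le_nhds
    · filter_upwards [self_mem_nhdsWithin] with x hx
      simp only [mem_Iio] at hx ⊢
      rw [div_lt_one hx0]
      exact hx
  refine ⟨x0, fun x => G0 p (x / x0), fun x => G1 p (x / x0) / x0, fun x => G2 p (x / x0) / x0 ^ 2,
    fun x => WW p (x / x0) / x0 ^ 3, fun x => W1 (x / x0) / x0 ^ 4, hx0, ?_, ?_, ?_, ?_, ?_, ?_,
    ?_, ?_, ?_⟩
  · intro x
    simp only
    rw [neg_div, G0_even]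
  · intro x hx
    have hm := hmem x hx
    refine ⟨G0_pos hfix hp hm, ?_, ?_, ?_, ?_, ?_⟩
    · have := (hasDerivAt_G0 hp hm).comp x (hdiv x)
      refine this.congr_deriv ?_
      ring
    · have := ((hasDerivAt_G1 hp hm).comp x (hdiv x)).div_const x0
      refine this.congr_deriv ?_
      field_simp
    · have := ((hasDerivAt_G2 hp hm).comp x (hdiv x)).div_const (x0 ^ 2)
      refine this.congr_deriv ?_
      field_simp
    · have := ((hasDerivAt_WW hfix hp hm).comp x (hdiv x)).div_const (x0 ^ 3)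
      refine this.congr_deriv ?_
      simp only [hW1]
      field_simp
    · have h1 := (((hasDerivAt_F0 hp hm).comp x (hdiv x)).const_mul (mu p)).div_const (x0 ^ 3)
      have h2 : HasDerivAt (fun y => G0 p (y / x0) * (WW p (y / x0) / x0 ^ 3))
          (mu p * (F1 p (x / x0) * (1 / x0)) / x0 ^ 3) x := by
        refine h1.congr_of_eventuallyEq ?_
        filter_upwards [Ioo_mem_nhds hx.1 hx.2] with y hy
        have := flux_eq hfix hp (hmem y hy)
        simp only [Function.comp]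
        rw [← this]
        ring
      refine h2.congr_deriv ?_
      rw [F1_eq hp]
      have e : mu p * ((2 * G0 p (x / x0) - x / x0 * G1 p (x / x0) - 2) * (1 / x0)) / x0 ^ 3
          = mu p * (2 * G0 p (x / x0) - x / x0 * G1 p (x / x0) - 2) / x0 ^ 4 := by
        field_simp
      rw [e, hx4]
      field_simp
  · have hc : ContinuousOn W1 (Ioo (-1) 1) := by
      have c1 : ContinuousOn (F1 p) (Ioo (-1) 1) := fun y hy =>
        (hasDerivAt_F1 hp hy).continuousAt.continuousWithinAt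
      have c2 : ContinuousOn (G0 p) (Ioo (-1) 1) := fun y hy =>
        (hasDerivAt_G0 hp hy).continuousAt.continuousWithinAt
      have c3 : ContinuousOn (F0 p) (Ioo (-1) 1) := fun y hy =>
        (hasDerivAt_F0 hp hy).continuousAt.continuousWithinAt
      have c4 : ContinuousOn (G1 p) (Ioo (-1) 1) := fun y hy =>
        (hasDerivAt_G1 hp hy).continuousAt.continuousWithinAt
      rw [hW1]
      exact (((continuousOn_const.mul c1).mul c2).sub ((continuousOn_const.mul c3).mul c4)).div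
        (c2.pow 2) fun y hy => (pow_pos (G0_pos hfix hp hy) 2).ne'
    apply ContinuousOn.div_const
    exact hc.comp (fun x _ => (hdiv x).continuousAt.continuousWithinAt) hmem
  · simp only [zero_div]
    unfold G1 mom
    simp
  · simp only [zero_div]
    have h := WW_odd (p := p) 0
    rw [neg_zero] at h
    have : WW p 0 = 0 := by linarith
    rw [this, zero_div]
  · intro x hx
    have hm := hmem x ⟨by linarith [hx.1], hx.2⟩
    have hy0 : 0 < x / x0 := div_pos hx.1 hx0
    have h1 := (F0_bounds hfix hp hy0.le hm.2).1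
    have h2 : 0 < c0 * (x / x0 * (1 - x / x0)) := by
      have a := c0_pos
      have b : 0 < 1 - x / x0 := by linarith [hm.2]
      positivity
    have h3 : 0 < F0 p (x / x0) := lt_of_lt_of_le h2 h1
    have h4 := G0_pos hfix hp hm
    simp only
    rw [WW_eq_div hfix hp hm]
    positivity
  · exact (G0_tendsto hfix hp).comp hlim
  · have := ((G1_tendsto hp).comp hlim).div_const x0
    simpa using this
  · have h := (((F0_tendsto hfix hp).comp hlim).const_mul (mu p)).div_const (x0 ^ 3)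
    simp only [mul_zero, zero_div] at h
    refine h.congr' ?_
    have hev : ∀ᶠ y in 𝓝[<] x0, y ∈ Ioo (-x0) x0 :=
      Ioo_mem_nhdsLT (by linarith)
    filter_upwards [hev] with y hy
    have := flux_eq hfix hp (hmem y hy)
    simp only [Function.comp]
    rw [← this]
    ring

end Pool.Agent.N260.TF
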