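import Pool.Agent.N260.TF.Map

set_option autoImplicit false

open Set MeasureTheory intervalIntegral Filter Topology BoundedContinuousFunction

namespace Pool.Agent.N260.TF

theorem ext_tendsto {u : ℕ → (unitInterval →ᵇ ℝ)} {a : unitInterval →ᵇ ℝ}
    (h : Tendsto u atTop (𝓝 a)) (t : ℝ) : Tendsto (fun n => ext (u n) t) atTop (𝓝 (ext a t)) := by
  unfold ext
  exact ((continuous_apply (projIcc 0 1 zero_le_one t)).comp
    BoundedContinuousFunction.continuous_coe).tendsto a |>.comp h

theorem dens_tendsto {u : ℕ → E} {p : E} (hp : p ∈ KK) (h : Tendsto u atTop (𝓝 p)) {t : ℝ}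
    (ht : t ∈ Icc (0:ℝ) 1) (ht1 : t < 1) :
    Tendsto (fun n => dens (u n) t) atTop (𝓝 (dens p t)) := by
  have h1 := ext_tendsto ((continuous_fst.tendsto p).comp h) t
  have h2 := ext_tendsto ((continuous_snd.tendsto p).comp h) t
  have h3 : ext p.2 t ≠ 0 := by
    have := (ext_bounds hp ht).2.2.1
    have h5 : 0 < 1 - t := by linarith
    have : 0 < ext p.2 t := lt_of_lt_of_le (by positivity) this
    exact this.ne'
  unfold dens
  exact ((h1.div h2 h3).max tendsto_const_nhds).min tendsto_const_nhds

/-- the distance of two densities -/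
noncomputable def dd (V U : ℝ → ℝ) : ℝ := ∫ t in (0:ℝ)..1, t * (1 - t) * |V t - U t|

theorem int_dd {V U : ℝ → ℝ} (hV : Adm V) (hU : Adm U) (a b : ℝ) :
    IntervalIntegrable (fun t => t * (1 - t) * |a * V t - b * U t|) volume 0 1 := by
  have h1 : IntervalIntegrable (fun t => t * (1 - t) * (a * V t - b * U t)) volume 0 1 := by
    have := (hV.int_m1.const_mul a).sub (hU.int_m1.const_mul b)
    refine this.congr ?_
    intro t _
    ring
  refine (h1.abs).congr ?_
  intro t ht
  rw [uIoc_of_le zero_le_one] at ht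
  have h2 : 0 ≤ t * (1 - t) := mul_nonneg ht.1.le (by linarith [ht.2])
  simp only [abs_mul]
  rw [← abs_mul t, abs_of_nonneg h2]

theorem int_dd' {V U : ℝ → ℝ} (hV : Adm V) (hU : Adm U) :
    IntervalIntegrable (fun t => t * (1 - t) * |V t - U t|) volume 0 1 := by
  simpa using int_dd hV hU 1 1

theorem II_dist {V U : ℝ → ℝ} (hV : Adm V) (hU : Adm U) : |II V - II U| ≤ 2 * dd V U := by
  unfold II dd
  rw [← intervalIntegral.integral_sub hV.int_II hU.int_II, ← Real.norm_eq_abs,
    ← intervalIntegral.integral_const_mul]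
  apply intervalIntegral.norm_integral_le_of_norm_le zero_le_one
  · refine Eventually.of_forall fun t ht => ?_
    have h1 : 0 ≤ 1 - t := by linarith [ht.2]
    have h2 := ht.1.le
    have h3 : 0 ≤ t * (1 - t ^ 2) := by
      have : 1 - t ^ 2 = (1 - t) * (1 + t) := by ring
      rw [this]; positivity
    rw [← mul_sub, Real.norm_eq_abs, abs_mul, abs_of_nonneg h3, ← mul_assoc]
    apply mul_le_mul_of_nonneg_right _ (abs_nonneg _)
    nlinarith [mul_nonneg (mul_nonneg h2 h1) h1]
  · exact (int_dd' hV hU).const_mul 2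

theorem dd_tendsto {u : ℕ → E} {p : E} (hp : p ∈ KK) (h : Tendsto u atTop (𝓝 p)) :
    Tendsto (fun n => dd (dens (u n)) (dens p)) atTop (𝓝 0) := by
  have e : (0:ℝ) = ∫ t in (0:ℝ)..1, t * (1 - t) * |dens p t - dens p t| := by simp
  rw [e]
  unfold dd
  apply intervalIntegral.tendsto_integral_filter_of_dominated_convergence (fun _ => 4)
  · refine Eventually.of_forall fun n => ?_
    have h1 := (dens_adm (u n)).meas
    have h2 := (dens_adm p).meas
    apply Measurable.aestronglyMeasurable
    fun_prop
  · refine Eventually.of_forall fun n => Eventually.of_forall fun t ht => ?_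
    rw [uIoc_of_le zero_le_one] at ht
    have ht' : t ∈ Icc (0:ℝ) 1 := ⟨ht.1.le, ht.2⟩
    have h1 : 0 ≤ 1 - t := by linarith [ht.2]
    have h2 := ht.1.le
    have a1 := (dens_adm (u n)).nonneg t ht'
    have a2 := (dens_adm p).nonneg t ht'
    have b1 := (dens_adm (u n)).le t ht'
    have b2 := (dens_adm p).le t ht'
    rw [Real.norm_eq_abs, abs_mul, abs_of_nonneg (mul_nonneg h2 h1), abs_abs]
    have c1 : |dens (u n) t - dens p t| ≤ max (dens (u n) t) (dens p t) := by
      rw [abs_le]
      constructor
      · linarith [le_max_right (dens (u n) t) (dens p t)]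
      · linarith [le_max_left (dens (u n) t) (dens p t)]
    have c2 : (1 - t) * max (dens (u n) t) (dens p t) ≤ 4 * t := by
      rcases le_total (dens (u n) t) (dens p t) with hh | hh
      · rwa [max_eq_right hh]
      · rwa [max_eq_left hh]
    calc t * (1 - t) * |dens (u n) t - dens p t| ≤ t * (1 - t) * max (dens (u n) t) (dens p t) :=
          mul_le_mul_of_nonneg_left c1 (mul_nonneg h2 h1)
      _ = t * ((1 - t) * max (dens (u n) t) (dens p t)) := by ring
      _ ≤ t * (4 * t) := mul_le_mul_of_nonneg_left c2 h2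
      _ ≤ 4 := by nlinarith [ht.2]
  · simp
  · have hne : ∀ᵐ t : ℝ, t ≠ 1 := by
      have : ({1} : Set ℝ)ᶜ ∈ ae (volume : Measure ℝ) := by
        rw [mem_ae_iff, compl_compl]
        simp
      filter_upwards [this] with t ht
      simpa using ht
    filter_upwards [hne] with t htne ht
    rw [uIoc_of_le zero_le_one] at ht
    have ht' : t ∈ Icc (0:ℝ) 1 := ⟨ht.1.le, ht.2⟩
    have := dens_tendsto hp h ht' (lt_of_le_of_ne ht.2 htne)
    exact tendsto_const_nhds.mul ((this.sub tendsto_const_nhds).abs)

theorem mu_tendsto {u : ℕ → E} {p : E} (hp : p ∈ KK) (h : Tendsto u atTop (𝓝 p)) :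
    Tendsto (fun n => mu (u n)) atTop (𝓝 (mu p)) := by
  have h1 : Tendsto (fun n => II (dens (u n))) atTop (𝓝 (II (dens p))) := by
    rw [tendsto_iff_dist_tendsto_zero]
    have h2 := (dd_tendsto hp h).const_mul 2
    rw [mul_zero] at h2
    refine squeeze_zero (fun n => dist_nonneg) (fun n => ?_) h2
    rw [Real.dist_eq]
    exact II_dist (dens_adm _) (dens_adm _)
  exact tendsto_const_nhds.div h1 (II_dens_pos hp).ne'

theorem dd2_tendsto {u : ℕ → E} {p : E} (hp : p ∈ KK) (h : Tendsto u atTop (𝓝 p)) :
    Tendsto (fun n => ∫ t in (0:ℝ)..1, t * (1 - t) * |mu (u n) * dens (u n) t - mu p * dens p t|)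
      atTop (𝓝 0) := by
  have h1 := (mu_tendsto hp h).abs.mul (dd_tendsto hp h)
  have h2 : Tendsto (fun n => |mu (u n) - mu p| * m1 (dens p)) atTop (𝓝 (|mu p - mu p| * m1 (dens p))) :=
    ((mu_tendsto hp h).sub tendsto_const_nhds).abs.mul tendsto_const_nhds
  have h3 := h1.add h2
  simp only [sub_self, abs_zero, zero_mul, mul_zero, add_zero] at h3
  refine squeeze_zero (fun n => ?_) (fun n => ?_) h3
  · apply intervalIntegral.integral_nonneg zero_le_one
    intro t ht
    exact mul_nonneg (mul_nonneg ht.1 (by linarith [ht.2])) (abs_nonneg _)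
  · unfold dd m1
    rw [← intervalIntegral.integral_const_mul, ← intervalIntegral.integral_const_mul,
      ← intervalIntegral.integral_add ((int_dd' (dens_adm _) (dens_adm _)).const_mul _)
      ((dens_adm p).int_m1.const_mul _)]
    apply intervalIntegral.integral_mono_on zero_le_one (int_dd (dens_adm _) (dens_adm _) _ _)
    · exact ((int_dd' (dens_adm _) (dens_adm _)).const_mul _).add
        ((dens_adm p).int_m1.const_mul _)
    · intro t ht
      have h5 : 0 ≤ t * (1 - t) := mul_nonneg ht.1 (by linarith [ht.2])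
      have h6 := (dens_adm p).nonneg t ht
      have e : mu (u n) * dens (u n) t - mu p * dens p t
          = mu (u n) * (dens (u n) t - dens p t) + (mu (u n) - mu p) * dens p t := by ring
      have h7 : |mu (u n) * dens (u n) t - mu p * dens p t|
          ≤ |mu (u n)| * |dens (u n) t - dens p t| + |mu (u n) - mu p| * dens p t := by
        rw [e]
        refine (abs_add_le _ _).trans ?_
        rw [abs_mul, abs_mul, abs_of_nonneg h6]
      calc _ ≤ t * (1 - t) * (|mu (u n)| * |dens (u n) t - dens p t|
            + |mu (u n) - mu p| * dens p t) := mul_le_mul_of_nonneg_left h7 h5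
        _ = _ := by ring

theorem map_tendsto {u : ℕ → E} {p : E} (hp : p ∈ KK) (h : Tendsto u atTop (𝓝 p)) :
    Tendsto (fun n => map (u n)) atTop (𝓝 (map p)) := by
  have h2 := dd2_tendsto hp h
  have hnn : ∀ n, 0 ≤ ∫ t in (0:ℝ)..1, t * (1 - t) *
      |mu (u n) * dens (u n) t - mu p * dens p t| := by
    intro n
    apply intervalIntegral.integral_nonneg zero_le_one
    intro t ht
    exact mul_nonneg (mul_nonneg ht.1 (by linarith [ht.2])) (abs_nonneg _)
  apply Tendsto.prodMk_nhds
  · rw [tendsto_iff_dist_tendsto_zero]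
    refine squeeze_zero (fun n => dist_nonneg) (fun n => ?_) h2
    rw [BoundedContinuousFunction.dist_le (hnn n)]
    intro x
    rw [Real.dist_eq, mapA_apply, mapA_apply]
    exact FF_dist (dens_adm _) (dens_adm _) _ _ x.2.1 x.2.2
  · rw [tendsto_iff_dist_tendsto_zero]
    refine squeeze_zero (fun n => dist_nonneg) (fun n => ?_) h2
    rw [BoundedContinuousFunction.dist_le (hnn n)]
    intro x
    rw [Real.dist_eq, mapB_apply, mapB_apply]
    exact GG_dist (dens_adm _) (dens_adm _) _ _ x.2.1 x.2.2

theorem map_continuousOn : ContinuousOn map KK := by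
  rw [continuousOn_iff_continuous_restrict]
  apply SeqContinuous.continuous
  intro u p hu
  have h : Tendsto (fun n => (u n : E)) atTop (𝓝 (p : E)) :=
    (continuous_subtype_val.tendsto p).comp hu
  exact map_tendsto p.2 h

theorem exists_fixed : ∃ p ∈ KK, map p = p :=
  Pool.Agent.W143.DQ.schauder KK_compact KK_convex KK_nonempty map map_continuousOn
    (fun _ hx => map_mem hx)

end Pool.Agent.N260.TF
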