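import Mathlib

/-!
Kernels for the third order boundary value problems used for the thin film extinction profile.
-/

set_option autoImplicit false

open Set MeasureTheory

namespace Pool.Agent.N260.TF

/-- Green kernel of `G''' = W`, `G'(0) = 0`, `G(1) = G'(1) = 0`. -/
noncomputable def kG (x t : ℝ) : ℝ := (1 - t) * (t - x ^ 2) / 2 + (max (x - t) 0) ^ 2 / 2

/-- Green kernel of `Φ''' = - x W`, `Φ(0) = Φ''(0) = 0`, `Φ(1) = 0`. -/
noncomputable def kF (x t : ℝ) : ℝ := t * (1 - t) ^ 2 * x / 2 - t * (max (x - t) 0) ^ 2 / 2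

theorem kG_le {x t : ℝ} (hx0 : 0 ≤ x) (hx1 : x ≤ 1) (ht0 : 0 ≤ t) (ht1 : t ≤ 1) :
    kG x t ≤ (1 - x) * (t * (1 - t)) := by
  unfold kG
  rcases le_total t x with h | h
  · rw [max_eq_left (by linarith)]
    nlinarith [mul_nonneg (mul_nonneg ht0 (sub_nonneg.2 hx1)) (sub_nonneg.2 h),
      mul_nonneg (mul_nonneg ht0 (sub_nonneg.2 hx1)) (sub_nonneg.2 ht1)]
  · rw [max_eq_right (by linarith)]
    nlinarith [mul_nonneg (sub_nonneg.2 ht1) (sq_nonneg (1 - x)),
      mul_nonneg (sub_nonneg.2 ht1) (mul_nonneg hx0 (sub_nonneg.2 h)),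
      mul_nonneg (sub_nonneg.2 ht1) (mul_nonneg hx0 hx0),
      mul_nonneg (sub_nonneg.2 ht1) (mul_nonneg ht0 (sub_nonneg.2 hx1)),
      mul_nonneg (sub_nonneg.2 ht1) (mul_nonneg hx0 (sub_nonneg.2 hx1)),
      mul_nonneg (sub_nonneg.2 ht1) (mul_nonneg (sub_nonneg.2 h) (sub_nonneg.2 hx1)),
      mul_nonneg (sub_nonneg.2 ht1) (mul_nonneg (sub_nonneg.2 ht1) (sub_nonneg.2 hx1)),
      mul_nonneg (sub_nonneg.2 ht1) (mul_nonneg (sub_nonneg.2 ht1) hx0)]

theorem kG_ge {x t : ℝ} (hx0 : 0 ≤ x) (hx1 : x ≤ 1) (ht0 : 0 ≤ t) (ht1 : t ≤ 1) :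
    (1 - x) ^ 2 * (t * (1 - t)) / 2 ≤ kG x t := by
  unfold kG
  rcases le_total t x with h | h
  · rw [max_eq_left (by linarith)]
    nlinarith [mul_nonneg (mul_nonneg ht0 ht0) (sq_nonneg (1 - x))]
  · rw [max_eq_right (by linarith)]
    nlinarith [mul_nonneg (sub_nonneg.2 ht1) (mul_nonneg hx0 (sub_nonneg.2 h)),
      mul_nonneg (mul_nonneg (sub_nonneg.2 ht1) (mul_nonneg hx0 ht0)) (sub_nonneg.2 hx1)]

theorem kG_nonneg {x t : ℝ} (hx0 : 0 ≤ x) (hx1 : x ≤ 1) (ht0 : 0 ≤ t) (ht1 : t ≤ 1) :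
    0 ≤ kG x t :=
  le_trans (by have := sub_nonneg.2 ht1; positivity) (kG_ge hx0 hx1 ht0 ht1)

theorem kF_le {x t : ℝ} (hx0 : 0 ≤ x) (hx1 : x ≤ 1) (ht0 : 0 ≤ t) (ht1 : t ≤ 1) :
    kF x t ≤ x * (1 - x) * (t * (1 - t)) := by
  unfold kF
  rcases le_total t x with h | h
  · rw [max_eq_left (by linarith)]
    nlinarith [mul_nonneg (mul_nonneg ht0 (sub_nonneg.2 hx1)) (mul_nonneg hx0 (sub_nonneg.2 ht1)),
      mul_nonneg (mul_nonneg ht0 (sub_nonneg.2 hx1)) (mul_nonneg (sub_nonneg.2 h) (sub_nonneg.2 h)),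
      mul_nonneg (mul_nonneg ht0 (sub_nonneg.2 hx1)) (mul_nonneg hx0 (sub_nonneg.2 hx1)),
      mul_nonneg (mul_nonneg ht0 (sub_nonneg.2 hx1)) (mul_nonneg ht0 (sub_nonneg.2 h)),
      mul_nonneg (mul_nonneg ht0 (sub_nonneg.2 hx1)) (mul_nonneg ht0 (sub_nonneg.2 hx1))]
  · rw [max_eq_right (by linarith)]
    nlinarith [mul_nonneg (mul_nonneg ht0 (sub_nonneg.2 ht1)) (mul_nonneg hx0 (sub_nonneg.2 h)),
      mul_nonneg (mul_nonneg ht0 (sub_nonneg.2 ht1)) (mul_nonneg hx0 (sub_nonneg.2 ht1)),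
      mul_nonneg (mul_nonneg ht0 (sub_nonneg.2 ht1)) (mul_nonneg hx0 (sub_nonneg.2 hx1))]

theorem kF_ge {x t : ℝ} (hx0 : 0 ≤ x) (hx1 : x ≤ 1) (ht0 : 0 ≤ t) (ht1 : t ≤ 1) :
    x * (1 - x) * (t * (1 - t) ^ 2) / 2 ≤ kF x t := by
  unfold kF
  rcases le_total t x with h | h
  · rw [max_eq_left (by linarith)]
    have h1 : 0 ≤ t * (1 - x) * (t * (2 * x - t * (1 + x))) := by
      have : 0 ≤ 2 * x - t * (1 + x) := by nlinarith
      have h2 := sub_nonneg.2 hx1
      positivity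
    nlinarith [h1]
  · rw [max_eq_right (by linarith)]
    nlinarith [mul_nonneg (mul_nonneg ht0 (sq_nonneg (1 - t))) (mul_nonneg hx0 hx0)]

theorem kF_nonneg {x t : ℝ} (hx0 : 0 ≤ x) (hx1 : x ≤ 1) (ht0 : 0 ≤ t) (ht1 : t ≤ 1) :
    0 ≤ kF x t :=
  le_trans (by have := sub_nonneg.2 hx1; positivity) (kF_ge hx0 hx1 ht0 ht1)

theorem kG_lip_aux {x y t : ℝ} (hx0 : 0 ≤ x) (hxy : x ≤ y) (hy1 : y ≤ 1) (ht0 : 0 ≤ t)
    (ht1 : t ≤ 1) : |kG x t - kG y t| ≤ t * (1 - t) * (y - x) := by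
  unfold kG
  have hx1 : x ≤ 1 := hxy.trans hy1
  have hy0 : 0 ≤ y := hx0.trans hxy
  have e1 := sub_nonneg.2 ht1
  have e2 := sub_nonneg.2 hxy
  rw [abs_le]
  rcases le_total t x with h | h
  · rw [max_eq_left (by linarith), max_eq_left (by linarith)]
    have e3 := sub_nonneg.2 h
    have e4 := sub_nonneg.2 hy1
    have e5 := sub_nonneg.2 hx1
    constructor
    · nlinarith [mul_nonneg (mul_nonneg ht0 e2) e4, mul_nonneg (mul_nonneg ht0 e2) e5,
        mul_nonneg (mul_nonneg ht0 e2) e1]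
    · nlinarith [mul_nonneg (mul_nonneg ht0 e2) e3, mul_nonneg (mul_nonneg ht0 e2) e2]
  · rcases le_total t y with h' | h'
    · rw [max_eq_right (by linarith), max_eq_left (by linarith)]
      have e3 := sub_nonneg.2 h
      have e4 := sub_nonneg.2 h'
      have e5 := sub_nonneg.2 hy1
      have k1 : 0 ≤ (1 - t) * ((t - x) * (t + x)) := by positivity
      have k2 : 0 ≤ t * ((y - t) * ((1 - t) + (1 - y))) := by positivity
      have k3 : 0 ≤ t * (1 - t) * (y - x) := by positivity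
      have k4 : 0 ≤ (1 - t) * ((t - x) * (t - x)) := by positivity
      have k5 : 0 ≤ t * ((y - t) * (y - t)) := by positivity
      constructor
      · nlinarith
      · nlinarith
    · rw [max_eq_right (by linarith), max_eq_right (by linarith)]
      have e3 := sub_nonneg.2 h'
      have k1 : 0 ≤ (1 - t) * ((y - x) * (y + x)) := by positivity
      have k2 : 0 ≤ (1 - t) * ((y - x) * ((t - y) + (t - x))) := by
        have := sub_nonneg.2 h
        positivity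
      have k3 : 0 ≤ t * (1 - t) * (y - x) := by positivity
      constructor
      · nlinarith
      · nlinarith

theorem kG_lip {x y t : ℝ} (hx0 : 0 ≤ x) (hx1 : x ≤ 1) (hy0 : 0 ≤ y) (hy1 : y ≤ 1) (ht0 : 0 ≤ t)
    (ht1 : t ≤ 1) : |kG x t - kG y t| ≤ t * (1 - t) * |x - y| := by
  rcases le_total x y with h | h
  · rw [abs_sub_comm x y, abs_of_nonneg (sub_nonneg.2 h)]
    exact kG_lip_aux hx0 h hy1 ht0 ht1
  · rw [abs_of_nonneg (sub_nonneg.2 h), abs_sub_comm]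
    exact kG_lip_aux hy0 h hx1 ht0 ht1

theorem kF_lip_aux {x y t : ℝ} (hx0 : 0 ≤ x) (hxy : x ≤ y) (hy1 : y ≤ 1) (ht0 : 0 ≤ t)
    (ht1 : t ≤ 1) : |kF x t - kF y t| ≤ t * (1 - t) * (y - x) := by
  unfold kF
  have hx1 : x ≤ 1 := hxy.trans hy1
  have hy0 : 0 ≤ y := hx0.trans hxy
  have e1 := sub_nonneg.2 ht1
  have e2 := sub_nonneg.2 hxy
  have e6 := sub_nonneg.2 hy1
  have e7 := sub_nonneg.2 hx1
  rw [abs_le]
  rcases le_total t x with h | h
  · rw [max_eq_left (by linarith), max_eq_left (by linarith)]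
    have e3 := sub_nonneg.2 h
    have k1 : 0 ≤ t * ((y - x) * ((y - t) + (x - t))) := by
      have : 0 ≤ y - t := by linarith
      positivity
    have k2 : 0 ≤ t * ((y - x) * ((1 - y) + (1 - x))) := by positivity
    have k3 : 0 ≤ t * ((y - x) * ((1 - t) * (1 - t))) := by positivity
    have k4 : 0 ≤ t * ((y - x) * ((1 - t) * t)) := by positivity
    constructor
    · nlinarith
    · nlinarith
  · rcases le_total t y with h' | h'
    · rw [max_eq_right (by linarith), max_eq_left (by linarith)]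
      have e3 := sub_nonneg.2 h
      have e4 := sub_nonneg.2 h'
      have k1 : 0 ≤ t * ((y - t) * (y - t)) := by positivity
      have k2 : 0 ≤ t * ((y - t) * (1 - y)) := by positivity
      have k3 : 0 ≤ t * ((y - x) * ((1 - t) * (1 - t))) := by positivity
      have k4 : 0 ≤ t * ((y - x) * ((1 - t) * t)) := by positivity
      have k5 : 0 ≤ t * ((t - x) * (1 - t)) := by positivity
      constructor
      · nlinarith
      · nlinarith
    · rw [max_eq_right (by linarith), max_eq_right (by linarith)]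
      have k3 : 0 ≤ t * ((y - x) * ((1 - t) * (1 - t))) := by positivity
      have k4 : 0 ≤ t * ((y - x) * ((1 - t) * t)) := by positivity
      constructor
      · nlinarith
      · nlinarith

theorem kF_lip {x y t : ℝ} (hx0 : 0 ≤ x) (hx1 : x ≤ 1) (hy0 : 0 ≤ y) (hy1 : y ≤ 1) (ht0 : 0 ≤ t)
    (ht1 : t ≤ 1) : |kF x t - kF y t| ≤ t * (1 - t) * |x - y| := by
  rcases le_total x y with h | h
  · rw [abs_sub_comm x y, abs_of_nonneg (sub_nonneg.2 h)]
    exact kF_lip_aux hx0 h hy1 ht0 ht1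
  · rw [abs_of_nonneg (sub_nonneg.2 h), abs_sub_comm]
    exact kF_lip_aux hy0 h hx1 ht0 ht1

theorem continuous_kG (x : ℝ) : Continuous (kG x) := by
  unfold kG
  fun_prop

theorem continuous_kF (x : ℝ) : Continuous (kF x) := by
  unfold kF
  fun_prop

end Pool.Agent.N260.TF
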