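import Pool.Agent.N260.TF.Est

set_option autoImplicit false

open Set MeasureTheory intervalIntegral Filter Topology

namespace Pool.Agent.N260.TF

/-- the small constant -/
noncomputable def c0 : ℝ := 1 / 1000

theorem majorant {t : ℝ} (ht0 : 0 ≤ t) : c0 - (1 - t) ≤ c0 * t ^ 1000 := by
  have h := one_add_mul_le_pow (a := -(1 - t)) (by linarith) 1000
  have e : (1 + -(1 - t)) = t := by ring
  rw [e] at h
  unfold c0
  push_cast at h
  linarith

theorem int_poly : ∫ t in (0:ℝ)..1, (c0 / 4 * (t ^ 2 * (1 - t) * (1 - t - c0))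
    - 4 * c0 * t ^ 1002) = c0 / 4 * (1 / 30 - c0 / 12) - 4 * c0 / 1003 := by
  have h : ∀ t ∈ uIcc (0:ℝ) 1, HasDerivAt (fun t : ℝ => c0 / 4 * ((1 - c0) * t ^ 3 / 3
      - (2 - c0) * t ^ 4 / 4 + t ^ 5 / 5) - 4 * c0 * t ^ 1003 / 1003)
      (c0 / 4 * (t ^ 2 * (1 - t) * (1 - t - c0)) - 4 * c0 * t ^ 1002) t := by
    intro t _
    have h3 := (((hasDerivAt_pow 3 t).const_mul (1 - c0)).div_const 3)
    have h4 := (((hasDerivAt_pow 4 t).const_mul (2 - c0)).div_const 4)
    have h5 := (hasDerivAt_pow 5 t).div_const 5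
    have h6 := (((hasDerivAt_pow 1003 t).const_mul (4 * c0)).div_const 1003)
    have := (((h3.sub h4).add h5).const_mul (c0 / 4)).sub h6
    refine this.congr_deriv ?_
    norm_num
    ring
  rw [integral_eq_sub_of_hasDerivAt h]
  · unfold c0
    norm_num
  · apply Continuous.intervalIntegrable
    fun_prop

theorem int_poly_pos : 0 < c0 / 4 * (1 / 30 - c0 / 12) - 4 * c0 / 1003 := by
  unfold c0
  norm_num

variable {V : ℝ → ℝ}

theorem key (hV : Adm V) (hl : ∀ t ∈ Icc (0:ℝ) 1, t < 1 → c0 / 4 * t ≤ V t) :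
    c0 * m1 V ≤ m2 V := by
  have h1 : ∫ t in (0:ℝ)..1, (t * (1 - t) ^ 2 * V t - c0 * (t * (1 - t) * V t))
      = m2 V - c0 * m1 V := by
    unfold m2 m1
    rw [intervalIntegral.integral_sub hV.int_m2 (hV.int_m1.const_mul c0),
      intervalIntegral.integral_const_mul]
  have h2 : ∫ t in (0:ℝ)..1, (c0 / 4 * (t ^ 2 * (1 - t) * (1 - t - c0)) - 4 * c0 * t ^ 1002)
      ≤ ∫ t in (0:ℝ)..1, (t * (1 - t) ^ 2 * V t - c0 * (t * (1 - t) * V t)) := by
    apply integral_mono_on zero_le_one
    · apply Continuous.intervalIntegrable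
      fun_prop
    · exact hV.int_m2.sub (hV.int_m1.const_mul c0)
    · intro t ht
      have ht0 := ht.1
      have ht1 : 0 ≤ 1 - t := by linarith [ht.2]
      have hc : (0:ℝ) < c0 := by unfold c0; norm_num
      rcases eq_or_lt_of_le ht.2 with h | h
      · subst h
        norm_num
        positivity
      rcases le_total c0 (1 - t) with hh | hh
      · have k1 : c0 / 4 * t ≤ V t := hl t ht h
        have k2 : 0 ≤ t * (1 - t) * (1 - t - c0) := by
          have := sub_nonneg.2 hh
          positivity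
        have k3 := mul_le_mul_of_nonneg_left k1 k2
        have k4 : 0 ≤ 4 * c0 * t ^ 1002 := by positivity
        nlinarith
      · have k1 := hV.le t ht
        have k2 : 0 ≤ t * (c0 - (1 - t)) := by
          have := sub_nonneg.2 hh
          positivity
        have k3 := mul_le_mul_of_nonneg_left k1 k2
        have k4 := mul_le_mul_of_nonneg_left (majorant ht0) (by positivity : 0 ≤ 4 * t ^ 2)
        have k5 : 0 ≤ c0 / 4 * (t ^ 2 * (1 - t) * (c0 - (1 - t))) := by
          have := sub_nonneg.2 hh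
          positivity
        have k6 : t ^ 1002 = t ^ 2 * t ^ 1000 := by rw [← pow_add]
        rw [k6]
        nlinarith
  rw [int_poly, h1] at h2
  linarith [int_poly_pos]

theorem II_pos (hV : Adm V) (hl : ∀ t ∈ Icc (0:ℝ) 1, t < 1 → c0 / 4 * t ≤ V t) : 0 < II V := by
  have h : ∫ t in (0:ℝ)..1, (c0 / 4) * (t ^ 2 * (1 - t ^ 2)) ≤ II V := by
    unfold II
    apply integral_mono_on zero_le_one
    · apply Continuous.intervalIntegrable
      fun_prop
    · exact hV.int_II
    · intro t ht
      rcases eq_or_lt_of_le ht.2 with h | h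
      · subst h
        norm_num
      have k1 := hl t ht h
      have k2 : 0 ≤ t * (1 - t ^ 2) := by
        have h2 := ht.1
        have : 0 ≤ 1 - t ^ 2 := by nlinarith
        positivity
      have k3 := mul_le_mul_of_nonneg_left k1 k2
      linarith
  have h2 : ∫ t in (0:ℝ)..1, (c0 / 4) * (t ^ 2 * (1 - t ^ 2)) = c0 / 4 * (2 / 15) := by
    rw [intervalIntegral.integral_const_mul]
    congr 1
    have e : ∀ t : ℝ, t ^ 2 * (1 - t ^ 2) = t ^ 2 - t ^ 4 := fun t => by ring
    simp only [e]
    rw [intervalIntegral.integral_sub (by simp) (by simp)]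
    simp only [integral_pow]
    norm_num
  rw [h2] at h
  have : (0:ℝ) < c0 / 4 * (2 / 15) := by unfold c0; norm_num
  linarith

end Pool.Agent.N260.TF
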