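import Pool.Agent.N260.TF.Key
import Pool.Agent.N260.TF.Cpt
import Pool.Agent.W143.DQ.Schauder

set_option autoImplicit false

open Set MeasureTheory intervalIntegral Filter Topology BoundedContinuousFunction

namespace Pool.Agent.N260.TF

/-- extension of a function on `[0,1]` to the line, constant outside `[0,1]` -/
noncomputable def ext (a : unitInterval →ᵇ ℝ) (t : ℝ) : ℝ := a (projIcc 0 1 zero_le_one t)

theorem continuous_ext (a : unitInterval →ᵇ ℝ) : Continuous (ext a) :=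
  a.continuous.comp continuous_projIcc

theorem ext_of_mem (a : unitInterval →ᵇ ℝ) {t : ℝ} (ht : t ∈ Icc (0:ℝ) 1) :
    ext a t = a ⟨t, ht⟩ := by
  unfold ext
  rw [projIcc_of_mem zero_le_one ht]

abbrev E := (unitInterval →ᵇ ℝ) × (unitInterval →ᵇ ℝ)

noncomputable def dens (p : E) (t : ℝ) : ℝ :=
  min (max (ext p.1 t / ext p.2 t) 0) (4 * t / (1 - t))

theorem dens_adm (p : E) : Adm (dens p) where
  meas := by
    unfold dens
    have h1 := (continuous_ext p.1).measurable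
    have h2 := (continuous_ext p.2).measurable
    fun_prop
  nonneg := by
    intro t ht
    unfold dens
    have h1 : 0 ≤ 1 - t := by linarith [ht.2]
    have h2 := ht.1
    exact le_min (le_max_right _ _) (by positivity)
  le := by
    intro t ht
    have h1 : 0 ≤ 1 - t := by linarith [ht.2]
    have h2 : dens p t ≤ 4 * t / (1 - t) := min_le_right _ _
    rcases eq_or_lt_of_le h1 with h | h
    · rw [← h, zero_mul]
      linarith [ht.1]
    · calc (1 - t) * dens p t ≤ (1 - t) * (4 * t / (1 - t)) := mul_le_mul_of_nonneg_left h2 h1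
        _ = 4 * t := by field_simp

theorem cont_FF {V : ℝ → ℝ} (hV : Adm V) : Continuous fun x : unitInterval => FF V x := by
  apply LipschitzWith.continuous (K := Real.toNNReal (m1 V))
  refine LipschitzWith.of_dist_le_mul fun x y => ?_
  rw [Real.dist_eq, Subtype.dist_eq, Real.dist_eq, Real.coe_toNNReal _ (m1_nonneg hV)]
  exact FF_lip hV x.2.1 x.2.2 y.2.1 y.2.2

theorem cont_GG {V : ℝ → ℝ} (hV : Adm V) : Continuous fun x : unitInterval => GG V x := by
  apply LipschitzWith.continuous (K := Real.toNNReal (m1 V))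
  refine LipschitzWith.of_dist_le_mul fun x y => ?_
  rw [Real.dist_eq, Subtype.dist_eq, Real.dist_eq, Real.coe_toNNReal _ (m1_nonneg hV)]
  exact GG_lip hV x.2.1 x.2.2 y.2.1 y.2.2

noncomputable def mu (p : E) : ℝ := 4 / II (dens p)

noncomputable def mapA (p : E) : unitInterval →ᵇ ℝ :=
  mkOfCompact ⟨fun x => mu p * FF (dens p) x, continuous_const.mul (cont_FF (dens_adm p))⟩

noncomputable def mapB (p : E) : unitInterval →ᵇ ℝ :=
  mkOfCompact ⟨fun x => mu p * GG (dens p) x, continuous_const.mul (cont_GG (dens_adm p))⟩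

theorem mapA_apply (p : E) (x : unitInterval) : mapA p x = mu p * FF (dens p) x := rfl
theorem mapB_apply (p : E) (x : unitInterval) : mapB p x = mu p * GG (dens p) x := rfl

noncomputable def lA (x : ℝ) : ℝ := c0 * (x * (1 - x))
noncomputable def uA (x : ℝ) : ℝ := 4 * (x * (1 - x))
noncomputable def lB (x : ℝ) : ℝ := (1 - x) ^ 2
noncomputable def uB (x : ℝ) : ℝ := 4 * (1 - x)

/-- the compact convex set -/
def KK : Set E := (Box lA uA 4) ×ˢ (Box lB uB 4)

theorem c0_pos : 0 < c0 := by unfold c0; norm_num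

theorem KK_compact : IsCompact KK := by
  apply IsCompact.prod
  · apply box_compact _ _ _ 4 _ _ (by norm_num)
    · intro x hx
      have h1 : 0 ≤ 1 - x := by linarith [hx.2]
      have h2 := hx.1
      have h3 : 0 ≤ lA x := by
        unfold lA
        have := c0_pos
        positivity
      linarith
    · intro x hx
      unfold uA
      have h1 : 0 ≤ 1 - x := by linarith [hx.2]
      nlinarith [hx.1, hx.2]
  · apply box_compact _ _ _ 4 _ _ (by norm_num)
    · intro x hx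
      unfold lB
      nlinarith [sq_nonneg (1 - x)]
    · intro x hx
      unfold uB
      linarith [hx.1]

theorem KK_convex : Convex ℝ KK := (box_convex _ _ _).prod (box_convex _ _ _)

theorem KK_nonempty : KK.Nonempty := by
  refine ⟨(mkOfCompact ⟨fun x : unitInterval => (x:ℝ) * (1 - x), by fun_prop⟩,
    mkOfCompact ⟨fun x : unitInterval => 1 - (x:ℝ), by fun_prop⟩), ?_, ?_⟩
  · refine ⟨fun x => ?_, fun x => ?_, fun x y => ?_⟩
    · change c0 * ((x:ℝ) * (1 - x)) ≤ x * (1 - x)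
      have h : 0 ≤ (x:ℝ) * (1 - x) := mul_nonneg x.2.1 (by linarith [x.2.2])
      unfold c0
      linarith
    · change (x:ℝ) * (1 - x) ≤ 4 * (x * (1 - x))
      have h : 0 ≤ (x:ℝ) * (1 - x) := mul_nonneg x.2.1 (by linarith [x.2.2])
      linarith
    · change |(x:ℝ) * (1 - x) - y * (1 - y)| ≤ 4 * |(x:ℝ) - y|
      have e : (x:ℝ) * (1 - x) - y * (1 - y) = (1 - x - y) * (x - y) := by ring
      rw [e, abs_mul]
      apply mul_le_mul_of_nonneg_right _ (abs_nonneg _)
      rw [abs_le]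
      constructor <;> linarith [x.2.1, x.2.2, y.2.1, y.2.2]
  · refine ⟨fun x => ?_, fun x => ?_, fun x y => ?_⟩
    · change (1 - (x:ℝ)) ^ 2 ≤ 1 - x
      nlinarith [x.2.1, x.2.2]
    · change 1 - (x:ℝ) ≤ 4 * (1 - x)
      linarith [x.2.2]
    · change |1 - (x:ℝ) - (1 - y)| ≤ 4 * |(x:ℝ) - y|
      have e : 1 - (x:ℝ) - (1 - y) = -(x - y) := by ring
      rw [e, abs_neg]
      linarith [abs_nonneg ((x:ℝ) - y)]

theorem ext_bounds {p : E} (hp : p ∈ KK) {t : ℝ} (ht : t ∈ Icc (0:ℝ) 1) :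
    c0 * (t * (1 - t)) ≤ ext p.1 t ∧ ext p.1 t ≤ 4 * (t * (1 - t)) ∧ (1 - t) ^ 2 ≤ ext p.2 t ∧
      ext p.2 t ≤ 4 * (1 - t) := by
  rw [ext_of_mem _ ht, ext_of_mem _ ht]
  exact ⟨hp.1.1 ⟨t, ht⟩, hp.1.2.1 ⟨t, ht⟩, hp.2.1 ⟨t, ht⟩, hp.2.2.1 ⟨t, ht⟩⟩

theorem dens_eq {p : E} (hp : p ∈ KK) {t : ℝ} (ht : t ∈ Icc (0:ℝ) 1) (ht1 : t < 1) :
    dens p t = ext p.1 t / ext p.2 t ∧ c0 / 4 * t ≤ dens p t := by
  obtain ⟨h1, h2, h3, h4⟩ := ext_bounds hp ht
  have h5 : 0 < 1 - t := by linarith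
  have h6 : 0 < ext p.2 t := lt_of_lt_of_le (by positivity) h3
  have ht0 := ht.1
  have hc := c0_pos
  have h7 : c0 / 4 * t ≤ ext p.1 t / ext p.2 t := by
    rw [le_div_iff₀ h6]
    calc c0 / 4 * t * ext p.2 t ≤ c0 / 4 * t * (4 * (1 - t)) :=
          mul_le_mul_of_nonneg_left h4 (by positivity)
      _ = c0 * (t * (1 - t)) := by ring
      _ ≤ ext p.1 t := h1
  have h8 : ext p.1 t / ext p.2 t ≤ 4 * t / (1 - t) := by
    rw [div_le_div_iff₀ h6 h5]
    calc ext p.1 t * (1 - t) ≤ 4 * (t * (1 - t)) * (1 - t) :=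
          mul_le_mul_of_nonneg_right h2 h5.le
      _ = 4 * t * (1 - t) ^ 2 := by ring
      _ ≤ 4 * t * ext p.2 t := mul_le_mul_of_nonneg_left h3 (by positivity)
  have h9 : dens p t = ext p.1 t / ext p.2 t := by
    unfold dens
    rw [max_eq_left (le_trans (by positivity) h7), min_eq_left h8]
  exact ⟨h9, by rw [h9]; exact h7⟩

theorem dens_low {p : E} (hp : p ∈ KK) : ∀ t ∈ Icc (0:ℝ) 1, t < 1 → c0 / 4 * t ≤ dens p t :=
  fun _ ht h => (dens_eq hp ht h).2

theorem II_dens_pos {p : E} (hp : p ∈ KK) : 0 < II (dens p) := II_pos (dens_adm p) (dens_low hp)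

theorem mu_pos {p : E} (hp : p ∈ KK) : 0 < mu p := div_pos (by norm_num) (II_dens_pos hp)

theorem mu_m1_le {p : E} (hp : p ∈ KK) : mu p * m1 (dens p) ≤ 4 := by
  have h := II_dens_pos hp
  unfold mu
  rw [div_mul_eq_mul_div, div_le_iff₀ h]
  linarith [m1_le_II (dens_adm p)]

theorem mu_m1_ge {p : E} (hp : p ∈ KK) : 2 ≤ mu p * m1 (dens p) := by
  have h := II_dens_pos hp
  unfold mu
  rw [div_mul_eq_mul_div, le_div_iff₀ h]
  linarith [II_le (dens_adm p)]

theorem mu_m2_ge {p : E} (hp : p ∈ KK) : 2 * c0 ≤ mu p * m2 (dens p) := by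
  have h1 := key (dens_adm p) (dens_low hp)
  have h2 := mu_m1_ge hp
  have h3 := mul_le_mul_of_nonneg_left h1 (mu_pos hp).le
  have h4 := mul_le_mul_of_nonneg_left h2 c0_pos.le
  nlinarith

/-- the map -/
noncomputable def map (p : E) : E := (mapA p, mapB p)

theorem map_mem {p : E} (hp : p ∈ KK) : map p ∈ KK := by
  have hV := dens_adm p
  have hm := mu_pos hp
  have h4 := mu_m1_le hp
  have h2 := mu_m1_ge hp
  have h5 := mu_m2_ge hp
  refine ⟨⟨fun x => ?_, fun x => ?_, fun x y => ?_⟩, ⟨fun x => ?_, fun x => ?_, fun x y => ?_⟩⟩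
  · change c0 * ((x:ℝ) * (1 - x)) ≤ mu p * FF (dens p) x
    have hx : 0 ≤ (x:ℝ) * (1 - x) := mul_nonneg x.2.1 (by linarith [x.2.2])
    have := mul_le_mul_of_nonneg_left (FF_ge hV x.2.1 x.2.2) hm.le
    nlinarith [mul_le_mul_of_nonneg_left h5 hx]
  · change mu p * FF (dens p) x ≤ 4 * ((x:ℝ) * (1 - x))
    have hx : 0 ≤ (x:ℝ) * (1 - x) := mul_nonneg x.2.1 (by linarith [x.2.2])
    have := mul_le_mul_of_nonneg_left (FF_le hV x.2.1 x.2.2) hm.le
    nlinarith [mul_le_mul_of_nonneg_left h4 hx]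
  · change |mu p * FF (dens p) x - mu p * FF (dens p) y| ≤ 4 * |(x:ℝ) - y|
    rw [← mul_sub, abs_mul, abs_of_pos hm]
    have := mul_le_mul_of_nonneg_left (FF_lip hV x.2.1 x.2.2 y.2.1 y.2.2) hm.le
    nlinarith [mul_le_mul_of_nonneg_right h4 (abs_nonneg ((x:ℝ) - y))]
  · change (1 - (x:ℝ)) ^ 2 ≤ mu p * GG (dens p) x
    have hx : 0 ≤ (1 - (x:ℝ)) ^ 2 := sq_nonneg _
    have := mul_le_mul_of_nonneg_left (GG_ge hV x.2.1 x.2.2) hm.le
    nlinarith [mul_le_mul_of_nonneg_left h2 hx]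
  · change mu p * GG (dens p) x ≤ 4 * (1 - (x:ℝ))
    have hx : 0 ≤ (1 - (x:ℝ)) := by linarith [x.2.2]
    have := mul_le_mul_of_nonneg_left (GG_le hV x.2.1 x.2.2) hm.le
    nlinarith [mul_le_mul_of_nonneg_left h4 hx]
  · change |mu p * GG (dens p) x - mu p * GG (dens p) y| ≤ 4 * |(x:ℝ) - y|
    rw [← mul_sub, abs_mul, abs_of_pos hm]
    have := mul_le_mul_of_nonneg_left (GG_lip hV x.2.1 x.2.2 y.2.1 y.2.2) hm.le
    nlinarith [mul_le_mul_of_nonneg_right h4 (abs_nonneg ((x:ℝ) - y))]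

end Pool.Agent.N260.TF
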