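import Pool.Agent.N260.TF.Fix

set_option autoImplicit false

open Set MeasureTheory intervalIntegral Filter Topology BoundedContinuousFunction

namespace Pool.Agent.N260.TF

section
variable (p : E)

/-- quotient -/
noncomputable def RR (t : ℝ) : ℝ := ext p.1 t / ext p.2 t

/-- the third derivative of the profile, extended to be odd -/
noncomputable def WW (t : ℝ) : ℝ := mu p * (RR p t - RR p (-t))

/-- moments -/
noncomputable def mom (k : ℕ) (x : ℝ) : ℝ := ∫ t in (0:ℝ)..x, t ^ k * WW p t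

noncomputable def C0 : ℝ := ∫ t in (0:ℝ)..1, (1 - t) * (mu p * dens p t)
noncomputable def C1 : ℝ := ∫ t in (0:ℝ)..1, t * (1 - t) * (mu p * dens p t)
noncomputable def C2 : ℝ := ∫ t in (0:ℝ)..1, t * (1 - t) ^ 2 * (mu p * dens p t)

noncomputable def G0 (x : ℝ) : ℝ :=
  C1 p / 2 - C0 p * x ^ 2 / 2 + (x ^ 2 * mom p 0 x - 2 * x * mom p 1 x + mom p 2 x) / 2
noncomputable def G1 (x : ℝ) : ℝ := - C0 p * x + x * mom p 0 x - mom p 1 x
noncomputable def G2 (x : ℝ) : ℝ := - C0 p + mom p 0 x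
noncomputable def F0 (x : ℝ) : ℝ :=
  C2 p * x / 2 - (x ^ 2 * mom p 1 x - 2 * x * mom p 2 x + mom p 3 x) / 2
noncomputable def F1 (x : ℝ) : ℝ := C2 p / 2 - (x * mom p 1 x - mom p 2 x)

end

variable {p : E}

theorem ext1_nonpos (hp : p ∈ KK) {t : ℝ} (ht : t ≤ 0) : ext p.1 t = 0 := by
  have h0 : (0:ℝ) ∈ Icc (0:ℝ) 1 := ⟨le_rfl, zero_le_one⟩
  have h1 := (ext_bounds hp h0).1
  have h2 := (ext_bounds hp h0).2.1
  have h3 : ext p.1 0 = 0 := by
    apply le_antisymm
    · simpa using h2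
    · simpa using h1
  have h4 : ext p.1 t = ext p.1 0 := by
    unfold ext
    rw [projIcc_of_le_left zero_le_one ht, projIcc_of_le_left zero_le_one le_rfl]
  rw [h4, h3]

theorem ext2_pos (hp : p ∈ KK) {t : ℝ} (ht : t < 1) : 0 < ext p.2 t := by
  rcases le_total t 0 with h | h
  · have h0 : (0:ℝ) ∈ Icc (0:ℝ) 1 := ⟨le_rfl, zero_le_one⟩
    have h1 := (ext_bounds hp h0).2.2.1
    have h4 : ext p.2 t = ext p.2 0 := by
      unfold ext
      rw [projIcc_of_le_left zero_le_one h, projIcc_of_le_left zero_le_one le_rfl]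
    rw [h4]
    norm_num at h1
    linarith
  · have h0 : t ∈ Icc (0:ℝ) 1 := ⟨h, ht.le⟩
    have h1 := (ext_bounds hp h0).2.2.1
    have h5 : 0 < 1 - t := by linarith
    exact lt_of_lt_of_le (by positivity) h1

theorem RR_nonpos (hp : p ∈ KK) {t : ℝ} (ht : t ≤ 0) : RR p t = 0 := by
  unfold RR
  rw [ext1_nonpos hp ht, zero_div]

theorem RR_cont (hp : p ∈ KK) : ContinuousOn (RR p) (Iio 1) := by
  unfold RR
  exact (continuous_ext p.1).continuousOn.div (continuous_ext p.2).continuousOn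
    fun t ht => (ext2_pos hp ht).ne'

theorem WW_cont (hp : p ∈ KK) : ContinuousOn (WW p) (Ioo (-1) 1) := by
  unfold WW
  apply ContinuousOn.mul continuousOn_const
  apply ContinuousOn.sub
  · exact (RR_cont hp).mono fun t ht => ht.2
  · exact (RR_cont hp).comp continuousOn_id.neg fun t ht => by
      simp only [mem_Iio, id]
      linarith [ht.1]

theorem WW_meas : Measurable (WW p) := by
  have h1 := (continuous_ext p.1).measurable
  have h2 := (continuous_ext p.2).measurable
  unfold WW RR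
  fun_prop

theorem WW_odd (t : ℝ) : WW p (-t) = - WW p t := by
  unfold WW
  rw [neg_neg]
  ring

theorem WW_eq (hp : p ∈ KK) {t : ℝ} (ht0 : 0 ≤ t) (ht1 : t < 1) : WW p t = mu p * dens p t := by
  unfold WW
  rw [RR_nonpos hp (by linarith : -t ≤ 0), sub_zero, (dens_eq hp ⟨ht0, ht1.le⟩ ht1).1]
  rfl

theorem uIcc_sub {x : ℝ} (hx : x ∈ Ioo (-1:ℝ) 1) : uIcc 0 x ⊆ Ioo (-1:ℝ) 1 := by
  intro t ht
  rcases le_total 0 x with h | h
  · rw [uIcc_of_le h] at ht
    exact ⟨by linarith [ht.1], by linarith [ht.2, hx.2]⟩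
  · rw [uIcc_of_ge h] at ht
    exact ⟨by linarith [ht.1, hx.1], by linarith [ht.2]⟩

theorem int_mom (hp : p ∈ KK) (k : ℕ) {x : ℝ} (hx : x ∈ Ioo (-1:ℝ) 1) :
    IntervalIntegrable (fun t => t ^ k * WW p t) volume 0 x := by
  apply ContinuousOn.intervalIntegrable
  exact ((continuous_pow k).continuousOn.mul (WW_cont hp)).mono (uIcc_sub hx)

theorem hasDerivAt_mom (hp : p ∈ KK) (k : ℕ) {x : ℝ} (hx : x ∈ Ioo (-1:ℝ) 1) :
    HasDerivAt (mom p k) (x ^ k * WW p x) x := by
  unfold mom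
  apply intervalIntegral.integral_hasDerivAt_right (int_mom hp k hx)
  · have : Measurable fun t => t ^ k * WW p t := by
      have := WW_meas (p := p)
      fun_prop
    exact this.stronglyMeasurable.stronglyMeasurableAtFilter
  · exact (((continuous_pow k).continuousOn.mul (WW_cont hp)).continuousAt
      (Ioo_mem_nhds hx.1 hx.2))

theorem hasDerivAt_G0 (hp : p ∈ KK) {x : ℝ} (hx : x ∈ Ioo (-1:ℝ) 1) :
    HasDerivAt (G0 p) (G1 p x) x := by
  have h0 := hasDerivAt_mom hp 0 hx
  have h1 := hasDerivAt_mom hp 1 hx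
  have h2 := hasDerivAt_mom hp 2 hx
  have hx2 := hasDerivAt_pow 2 x
  have hx1 := hasDerivAt_id x
  have k1 := ((hx2.const_mul (C0 p)).div_const 2)
  have k2 := ((hx2.mul h0).sub ((hx1.const_mul 2).mul h1)).add h2
  have := ((hasDerivAt_const x (C1 p / 2)).sub k1).add (k2.div_const 2)
  refine this.congr_deriv ?_
  unfold G1
  simp only [id]
  push_cast
  ring

theorem hasDerivAt_G1 (hp : p ∈ KK) {x : ℝ} (hx : x ∈ Ioo (-1:ℝ) 1) :
    HasDerivAt (G1 p) (G2 p x) x := by
  have h0 := hasDerivAt_mom hp 0 hx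
  have h1 := hasDerivAt_mom hp 1 hx
  have hx1 := hasDerivAt_id x
  have := ((hx1.const_mul (- C0 p)).add (hx1.mul h0)).sub h1
  refine this.congr_deriv ?_
  unfold G2
  simp only [id]
  ring

theorem hasDerivAt_G2 (hp : p ∈ KK) {x : ℝ} (hx : x ∈ Ioo (-1:ℝ) 1) :
    HasDerivAt (G2 p) (WW p x) x := by
  have h0 := hasDerivAt_mom hp 0 hx
  have := (hasDerivAt_const x (- C0 p)).add h0
  refine this.congr_deriv ?_
  ring

theorem hasDerivAt_F0 (hp : p ∈ KK) {x : ℝ} (hx : x ∈ Ioo (-1:ℝ) 1) :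
    HasDerivAt (F0 p) (F1 p x) x := by
  have h1 := hasDerivAt_mom hp 1 hx
  have h2 := hasDerivAt_mom hp 2 hx
  have h3 := hasDerivAt_mom hp 3 hx
  have hx2 := hasDerivAt_pow 2 x
  have hx1 := hasDerivAt_id x
  have k2 := ((hx2.mul h1).sub ((hx1.const_mul 2).mul h2)).add h3
  have := ((hx1.const_mul (C2 p)).div_const 2).sub (k2.div_const 2)
  refine this.congr_deriv ?_
  unfold F1
  simp only [id]
  push_cast
  ring

theorem hasDerivAt_F1 (hp : p ∈ KK) {x : ℝ} (hx : x ∈ Ioo (-1:ℝ) 1) :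
    HasDerivAt (F1 p) (- mom p 1 x) x := by
  have h1 := hasDerivAt_mom hp 1 hx
  have h2 := hasDerivAt_mom hp 2 hx
  have hx1 := hasDerivAt_id x
  have := (hasDerivAt_const x (C2 p / 2)).sub ((hx1.mul h1).sub h2)
  refine this.congr_deriv ?_
  simp only [id]
  ring

theorem mom_neg (k : ℕ) (x : ℝ) : mom p k (-x) = (-1) ^ k * mom p k x := by
  unfold mom
  have h := intervalIntegral.integral_comp_neg (a := 0) (b := x) (fun t => t ^ k * WW p t)
  rw [neg_zero] at h
  rw [intervalIntegral.integral_symm, ← h, ← intervalIntegral.integral_const_mul,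
    ← intervalIntegral.integral_neg]
  congr 1
  ext t
  rw [WW_odd, neg_pow]
  ring

theorem G0_even (x : ℝ) : G0 p (-x) = G0 p x := by
  unfold G0
  rw [mom_neg, mom_neg, mom_neg]
  ring

theorem F0_odd (x : ℝ) : F0 p (-x) = - F0 p x := by
  unfold F0
  rw [mom_neg, mom_neg, mom_neg]
  ring

theorem Adm.int_one_sub {V : ℝ → ℝ} (hV : Adm V) :
    IntervalIntegrable (fun t => (1 - t) * V t) volume 0 1 := by
  apply hV.integrable (by fun_prop) 1 (by norm_num)
  intro t ht
  have h1 : 0 ≤ 1 - t := by linarith [ht.2]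
  rw [abs_of_nonneg h1, one_mul]

/-- integrals against the truncated power -/
theorem trunc_int (hp : p ∈ KK) (k : ℕ) {x : ℝ} (hx0 : 0 ≤ x) (hx1 : x < 1) :
    ∫ t in (0:ℝ)..1, t ^ k * (max (x - t) 0) ^ 2 * (mu p * dens p t)
      = x ^ 2 * mom p k x - 2 * x * mom p (k + 1) x + mom p (k + 2) x := by
  have hV := dens_adm p
  have hint : IntervalIntegrable (fun t => t ^ k * (max (x - t) 0) ^ 2 * (mu p * dens p t))
      volume 0 1 := by
    have : IntervalIntegrable (fun t => (t ^ k * (max (x - t) 0) ^ 2) * dens p t) volume 0 1 := by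
      apply hV.integrable (by fun_prop) 1 (by norm_num)
      intro t ht
      have h1 : 0 ≤ 1 - t := by linarith [ht.2]
      have h2 : 0 ≤ max (x - t) 0 := le_max_right _ _
      have h3 : max (x - t) 0 ≤ 1 - t := max_le (by linarith) h1
      have h4 : t ^ k ≤ 1 := pow_le_one₀ ht.1 ht.2
      have h5 : 0 ≤ t ^ k := pow_nonneg ht.1 k
      rw [abs_of_nonneg (by positivity)]
      have h6 : (max (x - t) 0) ^ 2 ≤ 1 - t := by nlinarith [ht.1]
      calc t ^ k * (max (x - t) 0) ^ 2 ≤ 1 * (max (x - t) 0) ^ 2 :=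
            mul_le_mul_of_nonneg_right h4 (by positivity)
        _ ≤ 1 * (1 - t) := by linarith
    refine (this.const_mul (mu p)).congr ?_
    intro t _
    ring
  have hx' : x ∈ Ioo (-1:ℝ) 1 := ⟨by linarith, hx1⟩
  have i1 : IntervalIntegrable (fun t => t ^ k * (max (x - t) 0) ^ 2 * (mu p * dens p t))
      volume 0 x := hint.mono_set (by
        rw [uIcc_of_le hx0, uIcc_of_le zero_le_one]
        exact Icc_subset_Icc le_rfl hx1.le)
  have i2 : IntervalIntegrable (fun t => t ^ k * (max (x - t) 0) ^ 2 * (mu p * dens p t))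
      volume x 1 := hint.mono_set (by
        rw [uIcc_of_le hx1.le, uIcc_of_le zero_le_one]
        exact Icc_subset_Icc hx0 le_rfl)
  rw [← intervalIntegral.integral_add_adjacent_intervals i1 i2]
  have e2 : ∫ t in x..1, t ^ k * (max (x - t) 0) ^ 2 * (mu p * dens p t) = 0 := by
    apply intervalIntegral.integral_zero_ae
    refine Eventually.of_forall fun t ht => ?_
    rw [uIoc_of_le hx1.le] at ht
    rw [max_eq_right (by linarith [ht.1])]
    ring
  have e1 : ∫ t in (0:ℝ)..x, t ^ k * (max (x - t) 0) ^ 2 * (mu p * dens p t)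
      = ∫ t in (0:ℝ)..x, (x ^ 2 * (t ^ k * WW p t) - 2 * x * (t ^ (k + 1) * WW p t)
        + t ^ (k + 2) * WW p t) := by
    apply intervalIntegral.integral_congr
    intro t ht
    rw [uIcc_of_le hx0] at ht
    simp only
    rw [max_eq_left (by linarith [ht.2]), ← WW_eq hp ht.1 (lt_of_le_of_lt ht.2 hx1)]
    ring
  rw [e2, e1, add_zero]
  have j0 := int_mom hp k hx'
  have j1 := int_mom hp (k + 1) hx'
  have j2 := int_mom hp (k + 2) hx'
  rw [intervalIntegral.integral_add ((j0.const_mul _).sub (j1.const_mul _)) j2,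
    intervalIntegral.integral_sub (j0.const_mul _) (j1.const_mul _),
    intervalIntegral.integral_const_mul, intervalIntegral.integral_const_mul]
  rfl

theorem G0_eq (hp : p ∈ KK) {x : ℝ} (hx0 : 0 ≤ x) (hx1 : x < 1) :
    mu p * GG (dens p) x = G0 p x := by
  have hV := dens_adm p
  have ht := trunc_int hp 0 hx0 hx1
  simp only [pow_zero, one_mul, zero_add] at ht
  have i0 : IntervalIntegrable (fun t => (1 - t) * (mu p * dens p t)) volume 0 1 := by
    refine (hV.int_one_sub.const_mul (mu p)).congr ?_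
    intro t _
    ring
  have i1 : IntervalIntegrable (fun t => t * (1 - t) * (mu p * dens p t)) volume 0 1 := by
    refine (hV.int_m1.const_mul (mu p)).congr ?_
    intro t _
    ring
  have i2 : IntervalIntegrable (fun t => (max (x - t) 0) ^ 2 * (mu p * dens p t)) volume 0 1 := by
    have : IntervalIntegrable (fun t => ((max (x - t) 0) ^ 2) * dens p t) volume 0 1 := by
      apply hV.integrable (by fun_prop) 1 (by norm_num)
      intro t ht
      have h1 : 0 ≤ 1 - t := by linarith [ht.2]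
      have h2 : 0 ≤ max (x - t) 0 := le_max_right _ _
      have h3 : max (x - t) 0 ≤ 1 - t := max_le (by linarith) h1
      rw [abs_of_nonneg (by positivity)]
      nlinarith [ht.1]
    refine (this.const_mul (mu p)).congr ?_
    intro t _
    ring
  unfold G0 GG C1 C0
  rw [← ht, ← intervalIntegral.integral_const_mul]
  have e : ∀ t, mu p * (kG x t * dens p t) = (1 / 2) * (t * (1 - t) * (mu p * dens p t))
      - (x ^ 2 / 2) * ((1 - t) * (mu p * dens p t))
      + (1 / 2) * ((max (x - t) 0) ^ 2 * (mu p * dens p t)) := by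
    intro t
    unfold kG
    ring
  simp only [e]
  rw [intervalIntegral.integral_add ((i1.const_mul _).sub (i0.const_mul _)) (i2.const_mul _),
    intervalIntegral.integral_sub (i1.const_mul _) (i0.const_mul _),
    intervalIntegral.integral_const_mul, intervalIntegral.integral_const_mul,
    intervalIntegral.integral_const_mul]
  ring

theorem F0_eq (hp : p ∈ KK) {x : ℝ} (hx0 : 0 ≤ x) (hx1 : x < 1) :
    mu p * FF (dens p) x = F0 p x := by
  have hV := dens_adm p
  have ht := trunc_int hp 1 hx0 hx1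
  simp only [pow_one] at ht
  have i1 : IntervalIntegrable (fun t => t * (1 - t) ^ 2 * (mu p * dens p t)) volume 0 1 := by
    refine (hV.int_m2.const_mul (mu p)).congr ?_
    intro t _
    ring
  have i2 : IntervalIntegrable (fun t => t * (max (x - t) 0) ^ 2 * (mu p * dens p t))
      volume 0 1 := by
    have : IntervalIntegrable (fun t => (t * (max (x - t) 0) ^ 2) * dens p t) volume 0 1 := by
      apply hV.integrable (by fun_prop) 1 (by norm_num)
      intro t ht
      have h1 : 0 ≤ 1 - t := by linarith [ht.2]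
      have h0 := ht.1
      have h2 : 0 ≤ max (x - t) 0 := le_max_right _ _
      have h3 : max (x - t) 0 ≤ 1 - t := max_le (by linarith) h1
      rw [abs_of_nonneg (by positivity)]
      have h4 : (max (x - t) 0) ^ 2 ≤ 1 - t := by nlinarith
      calc t * (max (x - t) 0) ^ 2 ≤ 1 * (max (x - t) 0) ^ 2 :=
            mul_le_mul_of_nonneg_right ht.2 (by positivity)
        _ ≤ 1 * (1 - t) := by linarith
    refine (this.const_mul (mu p)).congr ?_
    intro t _
    ring
  unfold F0 FF C2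
  rw [← ht, ← intervalIntegral.integral_const_mul]
  have e : ∀ t, mu p * (kF x t * dens p t) = (x / 2) * (t * (1 - t) ^ 2 * (mu p * dens p t))
      - (1 / 2) * (t * (max (x - t) 0) ^ 2 * (mu p * dens p t)) := by
    intro t
    unfold kF
    ring
  simp only [e]
  rw [intervalIntegral.integral_sub (i1.const_mul _) (i2.const_mul _),
    intervalIntegral.integral_const_mul, intervalIntegral.integral_const_mul]
  ring

theorem norm_eq (hp : p ∈ KK) : C1 p - C2 p / 2 = 2 := by
  have hV := dens_adm p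
  have i1 : IntervalIntegrable (fun t => t * (1 - t) * (mu p * dens p t)) volume 0 1 := by
    refine (hV.int_m1.const_mul (mu p)).congr ?_
    intro t _
    ring
  have i2 : IntervalIntegrable (fun t => t * (1 - t) ^ 2 * (mu p * dens p t)) volume 0 1 := by
    refine (hV.int_m2.const_mul (mu p)).congr ?_
    intro t _
    ring
  have h : C1 p - C2 p / 2 = mu p * II (dens p) / 2 := by
    unfold C1 C2 II
    rw [← intervalIntegral.integral_const_mul, div_eq_mul_inv, div_eq_mul_inv,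
      ← intervalIntegral.integral_mul_const, ← intervalIntegral.integral_mul_const,
      ← intervalIntegral.integral_sub i1 (i2.mul_const _)]
    congr 1
    ext t
    ring
  rw [h]
  unfold mu
  have := (II_dens_pos hp).ne'
  field_simp
  norm_num

theorem F1_eq (hp : p ∈ KK) (x : ℝ) : F1 p x = 2 * G0 p x - x * G1 p x - 2 := by
  have h := norm_eq hp
  unfold F1 G0 G1
  linarith

variable (hfix : map p = p)
include hfix

theorem fix1 {t : ℝ} (ht : t ∈ Icc (0:ℝ) 1) : ext p.1 t = mu p * FF (dens p) t := by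
  rw [ext_of_mem _ ht]
  conv_lhs => rw [← hfix]
  rfl

theorem fix2 {t : ℝ} (ht : t ∈ Icc (0:ℝ) 1) : ext p.2 t = mu p * GG (dens p) t := by
  rw [ext_of_mem _ ht]
  conv_lhs => rw [← hfix]
  rfl

theorem G0_bounds (hp : p ∈ KK) {x : ℝ} (hx0 : 0 ≤ x) (hx1 : x < 1) :
    (1 - x) ^ 2 ≤ G0 p x ∧ G0 p x ≤ 4 * (1 - x) := by
  have h := ext_bounds hp (⟨hx0, hx1.le⟩ : x ∈ Icc (0:ℝ) 1)
  rw [fix2 hfix ⟨hx0, hx1.le⟩, G0_eq hp hx0 hx1] at h
  exact h.2.2

theorem F0_bounds (hp : p ∈ KK) {x : ℝ} (hx0 : 0 ≤ x) (hx1 : x < 1) :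
    c0 * (x * (1 - x)) ≤ F0 p x ∧ F0 p x ≤ 4 * (x * (1 - x)) := by
  have h := ext_bounds hp (⟨hx0, hx1.le⟩ : x ∈ Icc (0:ℝ) 1)
  rw [fix1 hfix ⟨hx0, hx1.le⟩, F0_eq hp hx0 hx1] at h
  exact ⟨h.1, h.2.1⟩

theorem G0_pos (hp : p ∈ KK) {x : ℝ} (hx : x ∈ Ioo (-1:ℝ) 1) : 0 < G0 p x := by
  rcases le_total 0 x with h | h
  · have h1 := (G0_bounds hfix hp h hx.2).1
    have h2 : 0 < 1 - x := by linarith [hx.2]
    exact lt_of_lt_of_le (by positivity) h1
  · have h1 := (G0_bounds hfix hp (neg_nonneg.2 h) (by linarith [hx.1])).1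
    rw [G0_even] at h1
    have h2 : 0 < 1 - -x := by linarith [hx.1]
    exact lt_of_lt_of_le (by positivity) h1

theorem flux_eq (hp : p ∈ KK) {x : ℝ} (hx : x ∈ Ioo (-1:ℝ) 1) :
    G0 p x * WW p x = mu p * F0 p x := by
  have key : ∀ y, 0 ≤ y → y < 1 → G0 p y * WW p y = mu p * F0 p y := by
    intro y hy0 hy1
    have hy : y ∈ Icc (0:ℝ) 1 := ⟨hy0, hy1.le⟩
    have h1 := fix1 hfix hy
    have h2 := fix2 hfix hy
    rw [F0_eq hp hy0 hy1] at h1
    rw [G0_eq hp hy0 hy1] at h2
    rw [WW_eq hp hy0 hy1, (dens_eq hp hy hy1).1, h1, h2]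
    have h3 : 0 < G0 p y := G0_pos hfix hp ⟨by linarith, hy1⟩
    field_simp
  rcases le_total 0 x with h | h
  · exact key x h hx.2
  · have h1 := key (-x) (neg_nonneg.2 h) (by linarith [hx.1])
    rw [G0_even, WW_odd, F0_odd] at h1
    linarith

theorem WW_eq_div (hp : p ∈ KK) {x : ℝ} (hx : x ∈ Ioo (-1:ℝ) 1) :
    WW p x = mu p * F0 p x / G0 p x := by
  rw [eq_div_iff (G0_pos hfix hp hx).ne', ← flux_eq hfix hp hx]
  ring

theorem hasDerivAt_WW (hp : p ∈ KK) {x : ℝ} (hx : x ∈ Ioo (-1:ℝ) 1) :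
    HasDerivAt (WW p) ((mu p * F1 p x * G0 p x - mu p * F0 p x * G1 p x) / (G0 p x) ^ 2) x := by
  have h1 := ((hasDerivAt_F0 hp hx).const_mul (mu p)).div (hasDerivAt_G0 hp hx)
    (G0_pos hfix hp hx).ne'
  refine h1.congr_of_eventuallyEq ?_
  filter_upwards [Ioo_mem_nhds hx.1 hx.2] with y hy
  exact WW_eq_div hfix hp hy

end Pool.Agent.N260.TF
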